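import Mathlib
import Pool.Agent.L5helper9.Nf4

namespace Pool.Agent.L5helper5.NfLow

open Module NumberField
open scoped Pointwise

section CD

variable {F L : Type*} [Field F] [Field L] [Algebra F L]

theorem finrank_map_mulLeft [FiniteDimensional F L] {e : L} (he : e ≠ 0) (B : Submodule F L) :
    finrank F (B.map (LinearMap.mulLeft F e)) = finrank F B := by
  have hinj : Function.Injective (LinearMap.mulLeft F e) := by
    intro x y h
    simpa [he] using h
  exact (LinearEquiv.finrank_eq (Submodule.equivMapOfInjective _ hinj B)).symm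

/-- the stabiliser -/
def stab (A : Submodule F L) : Subalgebra F L where
  carrier := {x | ∀ a ∈ A, a * x ∈ A}
  mul_mem' := by
    intro x y hx hy a ha
    rw [← mul_assoc]
    exact hy _ (hx _ ha)
  add_mem' := by
    intro x y hx hy a ha
    rw [mul_add]
    exact A.add_mem (hx a ha) (hy a ha)
  algebraMap_mem' := by
    intro r a ha
    rw [mul_comm, ← Algebra.smul_def]
    exact A.smul_mem r ha

theorem lcd_aux [FiniteDimensional F L] (hprim : ∀ K : IntermediateField F L, K = ⊥ ∨ K = ⊤)
    (k : ℕ) : ∀ (A B : Submodule F L), A ≠ ⊥ → (1 : L) ∈ B → finrank F B = k →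
      min (finrank F L) (finrank F A + finrank F B - 1) ≤ finrank F (A * B : Submodule F L) := by
  induction k using Nat.strong_induction_on with
  | _ k ih =>
    intro A B hA h1 hk
    have hAB : A ≤ A * B := by
      intro a ha
      have := Submodule.mul_mem_mul ha h1
      rwa [mul_one] at this
    by_cases hst : ∀ e ∈ A, ∀ b ∈ B, e * b ∈ A
    · -- the stabiliser is an intermediate field
      have hinv : ∀ x ∈ stab A, x⁻¹ ∈ stab A := by
        intro x hx
        exact (stab A).inv_mem_of_algebraic (x := ⟨x, hx⟩) (Algebra.IsAlgebraic.isAlgebraic x)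
      rcases hprim ((stab A).toIntermediateField hinv) with h | h
      · -- B is contained in F
        have hBle : B ≤ (1 : Submodule F L) := by
          intro b hb
          have hb' : b ∈ (stab A).toIntermediateField hinv := by
            intro a ha
            exact hst a ha b hb
          rw [h, IntermediateField.mem_bot] at hb'
          obtain ⟨r, hr⟩ := hb'
          exact Submodule.mem_one.2 ⟨r, hr⟩
        have hB1 : finrank F B ≤ 1 := by
          refine (Submodule.finrank_mono hBle).trans ?_
          rw [Submodule.one_eq_span]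
          exact (finrank_span_le_card (R := F) ({1} : Set L)).trans (by simp)
        refine (min_le_right _ _).trans ?_
        have := Submodule.finrank_mono hAB
        omega
      · -- A = ⊤
        have hAtop : A = ⊤ := by
          rw [eq_top_iff]
          intro x _
          obtain ⟨a, ha, ha0⟩ := Submodule.exists_mem_ne_zero_of_ne_bot hA
          have hx : a⁻¹ * x ∈ (stab A).toIntermediateField hinv := by
            rw [h]; exact IntermediateField.mem_top
          have := hx a ha
          rwa [mul_inv_cancel_left₀ ha0] at this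
        refine (min_le_left _ _).trans ?_
        have := Submodule.finrank_mono hAB
        rw [hAtop, finrank_top] at this
        rw [hAtop]
        exact this
    · push Not at hst
      obtain ⟨e, heA, b, hb, hebA⟩ := hst
      have he0 : e ≠ 0 := by
        rintro rfl
        rw [zero_mul] at hebA
        exact hebA A.zero_mem
      set f : L →ₗ[F] L := LinearMap.mulLeft F e with hf
      set B' : Submodule F L := B ⊓ A.comap f with hB'
      set A' : Submodule F L := A ⊔ B.map f with hA'
      have hinf : A ⊓ B.map f = B'.map f := by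
        ext x
        simp only [Submodule.mem_inf, Submodule.mem_map, hB', Submodule.mem_comap]
        constructor
        · rintro ⟨hx, y, hy, rfl⟩
          exact ⟨y, ⟨hy, hx⟩, rfl⟩
        · rintro ⟨y, ⟨hy, hyA⟩, rfl⟩
          exact ⟨hyA, y, hy, rfl⟩
      have hdim : finrank F A' + finrank F B' = finrank F A + finrank F B := by
        have h2 := Submodule.finrank_sup_add_finrank_inf_eq A (B.map f)
        rw [hinf, finrank_map_mulLeft he0, finrank_map_mulLeft he0] at h2
        exact h2
      have hlt : finrank F B' < finrank F B := by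
        apply Submodule.finrank_lt_finrank_of_lt
        refine lt_of_le_of_ne inf_le_left ?_
        intro h
        have : b ∈ B' := by rw [h]; exact hb
        exact hebA this.2
      have h1' : (1 : L) ∈ B' := by
        refine ⟨h1, ?_⟩
        change f 1 ∈ A
        simp only [hf, LinearMap.mulLeft_apply, mul_one]
        exact heA
      have hA'0 : A' ≠ ⊥ := by
        intro h
        apply hA
        rw [eq_bot_iff, ← h]
        exact le_sup_left
      have h3 := ih (finrank F B') (hk ▸ hlt) A' B' hA'0 h1' rfl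
      have hsub : A' * B' ≤ A * B := by
        rw [Submodule.mul_le]
        intro x hx y hy
        obtain ⟨a, ha, z, hz, rfl⟩ := Submodule.mem_sup.1 hx
        obtain ⟨b1, hb1, rfl⟩ := hz
        rw [add_mul]
        apply Submodule.add_mem
        · exact Submodule.mul_mem_mul ha hy.1
        · have h4 : f b1 * y = (f y) * b1 := by
            simp only [hf, LinearMap.mulLeft_apply]
            ring
          rw [h4]
          exact Submodule.mul_mem_mul hy.2 hb1
      have h5 := Submodule.finrank_mono hsub
      rw [hdim] at h3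
      exact h3.trans h5

theorem linear_cauchy_davenport {F L : Type*} [Field F] [Field L] [Algebra F L]
    [FiniteDimensional F L] (hprim : ∀ K : IntermediateField F L, K = ⊥ ∨ K = ⊤)
    (A B : Submodule F L) (hA : A ≠ ⊥) (hB : B ≠ ⊥) :
    min (finrank F L) (finrank F A + finrank F B - 1) ≤ finrank F (A * B : Submodule F L) := by
  obtain ⟨b, hb, hb0⟩ := Submodule.exists_mem_ne_zero_of_ne_bot hB
  have h1 : (1 : L) ∈ B.map (LinearMap.mulLeft F b⁻¹) := by
    refine ⟨b, hb, ?_⟩
    simp [hb0]
  have h2 := lcd_aux hprim _ A (B.map (LinearMap.mulLeft F b⁻¹)) hA h1 rfl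
  rw [finrank_map_mulLeft (inv_ne_zero hb0)] at h2
  have h3 : A * B.map (LinearMap.mulLeft F b⁻¹) ≤ (A * B).map (LinearMap.mulLeft F b⁻¹) := by
    rw [Submodule.mul_le]
    rintro x hx y ⟨z, hz, rfl⟩
    refine ⟨x * z, Submodule.mul_mem_mul hx hz, ?_⟩
    simp only [LinearMap.mulLeft_apply]
    ring
  have h4 := Submodule.finrank_mono h3
  rw [finrank_map_mulLeft (inv_ne_zero hb0)] at h4
  exact h2.trans h4

end CD

theorem pow_dim {F L : Type*} [Field F] [Field L] [Algebra F L]
    [FiniteDimensional F L] (hprim : ∀ K : IntermediateField F L, K = ⊥ ∨ K = ⊤)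
    (V : Submodule F L) (S : ℕ) (hS : 1 ≤ S) (hV : S + 1 ≤ finrank F V) (k : ℕ) :
    min (finrank F L) (k * S + 1) ≤ finrank F (V ^ k : Submodule F L) := by
  have hV0 : V ≠ ⊥ := by
    rintro rfl
    rw [finrank_bot] at hV
    omega
  induction k with
  | zero =>
    rw [pow_zero, zero_mul, zero_add, Submodule.one_eq_span]
    refine (min_le_right _ _).trans ?_
    rw [finrank_span_singleton (one_ne_zero)]
  | succ k ih =>
    have hVk : (V ^ k : Submodule F L) ≠ ⊥ := by
      intro h
      rw [h, finrank_bot] at ih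
      have : 0 < finrank F L := finrank_pos
      omega
    have h1 := linear_cauchy_davenport hprim (V ^ k) V hVk hV0
    rw [← pow_succ] at h1
    refine le_trans ?_ h1
    have h2 : (k + 1) * S + 1 = k * S + 1 + S := by ring
    rw [h2]
    omega

theorem norm_prod_le (L : Type) [Field L] [NumberField L] (B : ℝ) (hB : 1 ≤ B) (E : Set (𝓞 L))
    (hE : ∀ x ∈ E, ∀ φ : L →+* ℂ, ‖φ x‖ ≤ B) (k : ℕ) :
    ∀ x ∈ (insert (1 : 𝓞 L) E) ^ k, ∀ φ : L →+* ℂ, ‖φ (x : L)‖ ≤ B ^ k := by
  induction k with
  | zero =>
    intro x hx φ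
    rw [pow_zero, Set.mem_one] at hx
    rw [hx]; simp
  | succ k ih =>
    intro x hx φ
    rw [pow_succ, Set.mem_mul] at hx
    obtain ⟨y, hy, z, hz, rfl⟩ := hx
    rw [pow_succ]
    have h1 := ih y hy φ
    have h2 : ‖φ (z : L)‖ ≤ B := by
      rcases Set.mem_insert_iff.1 hz with rfl | hz
      · simpa using hB
      · exact hE z hz φ
    have h3 : φ ((y * z : 𝓞 L) : L) = φ (y : L) * φ (z : L) := by
      simp
    rw [h3, norm_mul]
    exact mul_le_mul h1 h2 (norm_nonneg _) (by positivity)

theorem greedy (L : Type) [Field L] [NumberField L]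
    (hprim : ∀ K : IntermediateField ℚ L, K = ⊥ ∨ K = ⊤) (S : ℕ) (hS : 1 ≤ S)
    (E : Set (𝓞 L))
    (hdim : S + 1 ≤ finrank ℚ (Submodule.span ℚ (insert (1 : L) ((fun x : 𝓞 L => (x : L)) '' E)))) :
    ∀ j ≤ finrank ℚ L, ∃ w : Fin j → 𝓞 L, LinearIndependent ℚ (fun i => (w i : L)) ∧
      ∀ i : Fin j, w i ∈ (insert (1 : 𝓞 L) E) ^ (((i : ℕ) + S - 1) / S) := by
  intro j
  induction j with
  | zero =>
    intro _
    exact ⟨Fin.elim0, linearIndependent_empty_type, fun i => i.elim0⟩
  | succ j ih =>
    intro hj
    obtain ⟨w, hw, hw2⟩ := ih (by omega)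
    set k := (j + S - 1) / S with hk
    have hkS : j ≤ k * S := by
      have h1 := Nat.div_add_mod (j + S - 1) S
      have h2 := Nat.mod_lt (j + S - 1) (by omega : 0 < S)
      rw [← hk, mul_comm] at h1
      omega
    have hset : insert (1 : L) ((fun x : 𝓞 L => (x : L)) '' E)
        = (algebraMap (𝓞 L) L) '' (insert (1 : 𝓞 L) E) := by
      rw [Set.image_insert_eq]
      simp
    have hspan : (Submodule.span ℚ (insert (1 : L) ((fun x : 𝓞 L => (x : L)) '' E))) ^ k
        = Submodule.span ℚ ((algebraMap (𝓞 L) L) '' ((insert (1 : 𝓞 L) E) ^ k)) := by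
      rw [Submodule.span_pow, hset, Set.image_pow]
    have hdimk := pow_dim hprim _ S hS hdim k
    rw [hspan] at hdimk
    have hex : ∃ x ∈ (insert (1 : 𝓞 L) E) ^ k,
        (x : L) ∉ Submodule.span ℚ (Set.range fun i => (w i : L)) := by
      by_contra hcon
      push Not at hcon
      have hle : Submodule.span ℚ ((algebraMap (𝓞 L) L) '' ((insert (1 : 𝓞 L) E) ^ k))
          ≤ Submodule.span ℚ (Set.range fun i => (w i : L)) := by
        rw [Submodule.span_le]
        rintro _ ⟨x, hx, rfl⟩
        exact hcon x hx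
      have h2 := Submodule.finrank_mono hle
      have h3 : finrank ℚ (Submodule.span ℚ (Set.range fun i => (w i : L))) ≤ j := by
        have := finrank_range_le_card (R := ℚ) (fun i : Fin j => (w i : L))
        simpa [Set.finrank] using this
      omega
    obtain ⟨x, hx, hxn⟩ := hex
    refine ⟨Fin.snoc w x, ?_, ?_⟩
    · have h4 : (fun i => ((Fin.snoc w x : Fin (j + 1) → 𝓞 L) i : L))
          = Fin.snoc (fun i => (w i : L)) (x : L) := by
        funext i
        refine Fin.lastCases ?_ (fun i => ?_) i
        · simp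
        · simp
      rw [h4, linearIndependent_finSnoc]
      exact ⟨hw, hxn⟩
    · intro i
      refine Fin.lastCases ?_ (fun i => ?_) i
      · simpa using hx
      · simpa using hw2 i

theorem discr_le_of_small (L : Type) [Field L] [NumberField L]
    (hprim : ∀ K : IntermediateField ℚ L, K = ⊥ ∨ K = ⊤) (S : ℕ) (hS : 1 ≤ S) (B : ℝ) (hB : 1 ≤ B)
    (E : Set (𝓞 L)) (hE : ∀ x ∈ E, ∀ φ : L →+* ℂ, ‖φ x‖ ≤ B)
    (hdim : S + 1 ≤ finrank ℚ (Submodule.span ℚ (insert (1 : L) ((fun x : 𝓞 L => (x : L)) '' E)))) :
    ((|NumberField.discr L| : ℤ) : ℝ) ≤ ((finrank ℚ L).factorial : ℝ) ^ 2 *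
      B ^ (2 * ∑ j ∈ Finset.range (finrank ℚ L), (j + S - 1) / S) := by
  obtain ⟨w, hw, hw2⟩ := greedy L hprim S hS E hdim (finrank ℚ L) le_rfl
  have hne : Algebra.discr ℚ (fun i => (w i : L)) ≠ 0 := by
    have h1 := Algebra.discr_not_zero_of_basis ℚ
      (basisOfLinearIndependentOfCardEqFinrank' (fun i => (w i : L)) hw (by simp))
    rwa [coe_basisOfLinearIndependentOfCardEqFinrank'] at h1
  obtain ⟨z, _, hz, hzle⟩ := L5helper9.Nf.discr_family L rfl w hne
  have hbd := L5helper9.Nf.discr_bound L rfl (fun i => (w i : L))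
    (fun j => B ^ (((j : ℕ) + S - 1) / S)) (fun j φ => norm_prod_le L B hB E hE _ (w j) (hw2 j) φ)
  rw [hz] at hbd
  have h2 : ((|NumberField.discr L| : ℤ) : ℝ) ≤ ((|z| : ℤ) : ℝ) := by exact_mod_cast hzle
  refine h2.trans ?_
  have h3 : ((|z| : ℤ) : ℝ) = |(((z : ℤ) : ℚ) : ℝ)| := by push_cast; rfl
  rw [h3]
  refine hbd.trans (le_of_eq ?_)
  rw [mul_pow, Finset.prod_pow_eq_pow_sum, ← pow_mul, mul_comm _ 2]
  congr 3
  exact Fin.sum_univ_eq_sum_range (fun j => (j + S - 1) / S) (finrank ℚ L)

end Pool.Agent.L5helper5.NfLow
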