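import Mathlib

namespace Pool.Agent.L5helper5.NfLow

open Module NumberField MeasureTheory Metric Set
open scoped ENNReal

open scoped Function in
theorem packing_aux {E : Type*} [NormedAddCommGroup E] [NormedSpace ℝ E] [FiniteDimensional ℝ E]
    (B lam : ℝ) (hlam : 0 < lam) (hB : 0 ≤ B) (s : Finset E) (hs : ∀ c ∈ s, ‖c‖ ≤ B)
    (h : ∀ c ∈ s, ∀ d ∈ s, c ≠ d → lam ≤ ‖c - d‖) :
    (s.card : ℝ) ≤ (1 + 2 * B / lam) ^ finrank ℝ E := by
  borelize E
  let μ : Measure E := Measure.addHaar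
  let δ : ℝ := lam / 2
  let ρ : ℝ := B + lam / 2
  have δpos : 0 < δ := by positivity
  have ρpos : 0 < ρ := by positivity
  set A := ⋃ c ∈ s, ball (c : E) δ with hA
  have D : Set.Pairwise (s : Set E) (Disjoint on fun c => ball (c : E) δ) := by
    rintro c hc d hd hcd
    apply ball_disjoint_ball
    rw [dist_eq_norm]
    have := h c hc d hd hcd
    simp only [δ]
    linarith
  have A_subset : A ⊆ ball (0 : E) ρ := by
    refine iUnion₂_subset fun x hx => ?_
    apply ball_subset_ball'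
    rw [dist_zero_right]
    have := hs x hx
    simp only [δ, ρ]
    linarith
  have I :
    (s.card : ℝ≥0∞) * ENNReal.ofReal (δ ^ finrank ℝ E) * μ (ball 0 1) ≤
      ENNReal.ofReal (ρ ^ finrank ℝ E) * μ (ball 0 1) :=
    calc
      (s.card : ℝ≥0∞) * ENNReal.ofReal (δ ^ finrank ℝ E) * μ (ball 0 1) = μ A := by
        rw [hA, measure_biUnion_finset D fun c _ => measurableSet_ball]
        simp only [μ.addHaar_ball_of_pos _ δpos]
        simp only [Finset.sum_const, nsmul_eq_mul, mul_assoc]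
      _ ≤ μ (ball (0 : E) ρ) := measure_mono A_subset
      _ = ENNReal.ofReal (ρ ^ finrank ℝ E) * μ (ball 0 1) := by
        simp only [μ.addHaar_ball_of_pos _ ρpos]
  have J : (s.card : ℝ≥0∞) * ENNReal.ofReal (δ ^ finrank ℝ E) ≤ ENNReal.ofReal (ρ ^ finrank ℝ E) :=
    (ENNReal.mul_le_mul_iff_left (measure_ball_pos _ _ zero_lt_one).ne' measure_ball_lt_top.ne).1 I
  have K : (s.card : ℝ) * δ ^ finrank ℝ E ≤ ρ ^ finrank ℝ E := by
    have := ENNReal.toReal_le_of_le_ofReal (pow_nonneg ρpos.le _) J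
    rwa [ENNReal.toReal_mul, ENNReal.toReal_natCast,
      ENNReal.toReal_ofReal (pow_nonneg δpos.le _)] at this
  have e : (1 + 2 * B / lam) = ρ / δ := by
    simp only [ρ, δ]
    field_simp
    ring
  rw [e, div_pow, le_div_iff₀ (pow_pos δpos _)]
  exact K

/-- the vector of the values of the embeddings -/
noncomputable def iota (L : Type) [Field L] [NumberField L] : L →ₗ[ℚ] ((L →+* ℂ) → ℂ) where
  toFun x := fun φ => φ x
  map_add' x y := by funext φ; simp
  map_smul' c x := by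
    funext φ
    simp [Algebra.smul_def]

theorem packing (L : Type) [Field L] [NumberField L] (V : Submodule ℚ L) (s : ℕ)
    (hs : finrank ℚ V ≤ s) (B lam : ℝ) (hlam : 0 < lam) (hB : lam ≤ B) (A : Finset L)
    (hA : ∀ x ∈ A, x ∈ V) (hAB : ∀ x ∈ A, ∀ φ : L →+* ℂ, ‖φ x‖ ≤ B)
    (hsep : ∀ x ∈ A, ∀ y ∈ A, x ≠ y → ∃ φ : L →+* ℂ, lam ≤ ‖φ (x - y)‖) :
    (A.card : ℝ) ≤ (1 + 2 * B / lam) ^ s := by
  classical
  have hB0 : 0 ≤ B := hlam.le.trans hB
  let b := Module.finBasis ℚ V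
  let E : Submodule ℝ ((L →+* ℂ) → ℂ) :=
    Submodule.span ℝ (Set.range fun i => iota L (b i : L))
  have hEf : finrank ℝ E ≤ s := by
    have h1 : finrank ℝ E ≤ Fintype.card (Fin (finrank ℚ V)) := by
      exact finrank_range_le_card _
    rw [Fintype.card_fin] at h1
    exact h1.trans hs
  have hmem : ∀ x ∈ V, iota L x ∈ E := by
    intro x hx
    have h2 := b.sum_repr ⟨x, hx⟩
    have h3 : x = ∑ i, (b.repr ⟨x, hx⟩ i) • (b i : L) := by
      have h2' := congrArg V.subtype h2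
      simp only [map_sum, map_smul, Submodule.subtype_apply] at h2'
      exact h2'.symm
    rw [h3, map_sum]
    refine Submodule.sum_mem _ fun i _ => ?_
    rw [map_smul]
    have h4 : (b.repr ⟨x, hx⟩ i) • iota L (b i : L)
        = ((b.repr ⟨x, hx⟩ i : ℚ) : ℝ) • iota L (b i : L) := by
      funext φ
      simp [Rat.smul_def]
    rw [h4]
    exact Submodule.smul_mem _ _ (Submodule.subset_span ⟨i, rfl⟩)
  let g : L → E := fun x => if hx : x ∈ V then ⟨iota L x, hmem x hx⟩ else 0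
  have hg : ∀ x ∈ A, (g x : (L →+* ℂ) → ℂ) = iota L x := by
    intro x hx
    simp only [g, dif_pos (hA x hx)]
  have hsep' : ∀ x ∈ A, ∀ y ∈ A, x ≠ y → lam ≤ ‖g x - g y‖ := by
    intro x hx y hy hxy
    obtain ⟨φ, hφ⟩ := hsep x hx y hy hxy
    have h5 : ‖g x - g y‖ = ‖(iota L x - iota L y : (L →+* ℂ) → ℂ)‖ := by
      rw [← hg x hx, ← hg y hy]
      rfl
    rw [h5]
    refine hφ.trans ?_
    have h6 := norm_le_pi_norm (iota L x - iota L y : (L →+* ℂ) → ℂ) φ
    have h7 : (iota L x - iota L y : (L →+* ℂ) → ℂ) φ = φ (x - y) := by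
      simp [iota]
    rw [h7] at h6
    exact h6
  have hinj : Set.InjOn g (A : Set L) := by
    intro x hx y hy hxy
    by_contra hne
    have h6 := hsep' x hx y hy hne
    rw [hxy] at h6
    have h0 : ‖g y - g y‖ = 0 := by
      rw [sub_self]
      exact norm_zero
    exact absurd (h6.trans h0.le) (not_le.2 hlam)
  have hcard : (A.image g).card = A.card := Finset.card_image_of_injOn hinj
  have h8 := packing_aux B lam hlam hB0 (A.image g) (by
    intro c hc
    obtain ⟨x, hx, rfl⟩ := Finset.mem_image.1 hc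
    have h9 : ‖g x‖ = ‖(iota L x : (L →+* ℂ) → ℂ)‖ := by
      rw [← hg x hx]; rfl
    rw [h9, pi_norm_le_iff_of_nonneg hB0]
    intro φ
    exact hAB x hx φ) (by
    intro c hc d hd hcd
    obtain ⟨x, hx, rfl⟩ := Finset.mem_image.1 hc
    obtain ⟨y, hy, rfl⟩ := Finset.mem_image.1 hd
    exact hsep' x hx y hy (fun h => hcd (by rw [h])))
  rw [hcard] at h8
  refine h8.trans ?_
  apply pow_le_pow_right₀ _ hEf
  have : 0 ≤ 2 * B / lam := by positivity
  linarith

theorem count_integers (L : Type) [Field L] [NumberField L] (V : Submodule ℚ L) (s : ℕ)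
    (hs : finrank ℚ V ≤ s) (B lam : ℝ) (hlam : 1 ≤ lam) (hB : lam ≤ B) (A : Finset (𝓞 L))
    (hA : ∀ x ∈ A, (x : L) ∈ V) (hAB : ∀ x ∈ A, ∀ φ : L →+* ℂ, ‖φ x‖ ≤ B)
    (hmin : ∀ x : 𝓞 L, (∀ k : ℤ, x ≠ k) → ∃ φ : L →+* ℂ, lam ≤ ‖φ x‖) :
    (A.card : ℝ) ≤ (2 * B + 1) * (1 + 2 * B / lam) ^ s := by
  classical
  have hB0 : 0 ≤ B := by linarith
  let H : AddSubgroup (𝓞 L) := (Int.castAddHom (𝓞 L)).range
  let f : 𝓞 L → 𝓞 L ⧸ H := fun x => (x : 𝓞 L ⧸ H)
  have hf : ∀ x y : 𝓞 L, f x = f y ↔ ∃ k : ℤ, y = x + k := by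
    intro x y
    simp only [f, QuotientAddGroup.eq]
    constructor
    · rintro ⟨k, hk⟩
      refine ⟨k, ?_⟩
      simp only [Int.coe_castAddHom] at hk
      rw [hk]; abel
    · rintro ⟨k, hk⟩
      refine ⟨k, ?_⟩
      simp only [Int.coe_castAddHom]
      rw [hk]; abel
  obtain ⟨φ0⟩ : Nonempty (L →+* ℂ) := inferInstance
  have hclass : ∀ a ∈ A.image f, (A.filter fun x => f x = a).card ≤ ⌊2 * B + 1⌋₊ := by
    intro a ha
    obtain ⟨x0, hx0, rfl⟩ := Finset.mem_image.1 ha
    set ρ : ℝ := (φ0 (x0 : L)).re with hρ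
    have hsub : (A.filter fun x => f x = f x0) ⊆
        (Finset.Icc ⌈-B - ρ⌉ ⌊B - ρ⌋).image (fun k : ℤ => x0 + (k : 𝓞 L)) := by
      intro x hx
      obtain ⟨hxA, hxf⟩ := Finset.mem_filter.1 hx
      obtain ⟨k, hk⟩ := (hf x0 x).1 hxf.symm
      refine Finset.mem_image.2 ⟨k, ?_, hk.symm⟩
      have h1 := hAB x hxA φ0
      have h2 : (φ0 (x : L)).re = ρ + k := by
        rw [hk]
        simp [hρ]
      have h3 := (Complex.abs_re_le_norm (φ0 (x : L))).trans h1
      rw [h2, abs_le] at h3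
      rw [Finset.mem_Icc]
      constructor
      · rw [Int.ceil_le]; linarith [h3.1]
      · rw [Int.le_floor]; linarith [h3.2]
    have h4 : (A.filter fun x => f x = f x0).card ≤ (⌊B - ρ⌋ + 1 - ⌈-B - ρ⌉).toNat := by
      refine (Finset.card_le_card hsub).trans (Finset.card_image_le.trans ?_)
      rw [Int.card_Icc]
    refine h4.trans ?_
    apply Nat.le_floor
    have h5 : ((⌊B - ρ⌋ + 1 - ⌈-B - ρ⌉ : ℤ) : ℝ) ≤ 2 * B + 1 := by
      push_cast
      have := Int.floor_le (B - ρ)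
      have := Int.le_ceil (-B - ρ)
      linarith
    rcases le_or_gt 0 (⌊B - ρ⌋ + 1 - ⌈-B - ρ⌉) with h6 | h6
    · have h7 : (((⌊B - ρ⌋ + 1 - ⌈-B - ρ⌉).toNat : ℤ) : ℝ)
          = ((⌊B - ρ⌋ + 1 - ⌈-B - ρ⌉ : ℤ) : ℝ) := by rw [Int.toNat_of_nonneg h6]
      have h8 : (((⌊B - ρ⌋ + 1 - ⌈-B - ρ⌉).toNat : ℕ) : ℝ)
          = (((⌊B - ρ⌋ + 1 - ⌈-B - ρ⌉).toNat : ℤ) : ℝ) := by norm_cast
      rw [h8, h7]; exact h5
    · rw [Int.toNat_of_nonpos h6.le]
      simp only [Nat.cast_zero]
      linarith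
  have h1 := Finset.card_le_mul_card_image A ⌊2 * B + 1⌋₊ hclass
  -- representatives
  have hrep : ∀ q : 𝓞 L ⧸ H, ∃ x : 𝓞 L, q ∈ A.image f → x ∈ A ∧ f x = q := by
    intro q
    by_cases hq : q ∈ A.image f
    · obtain ⟨x, hx, hxq⟩ := Finset.mem_image.1 hq
      exact ⟨x, fun _ => ⟨hx, hxq⟩⟩
    · exact ⟨0, fun h => absurd h hq⟩
  choose rep hrep using hrep
  let R : Finset L := (A.image f).image (fun q => (rep q : L))
  have hRc : R.card = (A.image f).card := by
    apply Finset.card_image_of_injOn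
    intro q hq q' hq' h
    have h2 : rep q = rep q' := by
      exact RingOfIntegers.ext h
    rw [← (hrep q hq).2, ← (hrep q' hq').2, h2]
  have h3 : (R.card : ℝ) ≤ (1 + 2 * B / lam) ^ s := by
    refine packing L V s hs B lam (by linarith) hB R ?_ ?_ ?_
    · intro x hx
      obtain ⟨q, hq, rfl⟩ := Finset.mem_image.1 hx
      exact hA _ (hrep q hq).1
    · intro x hx
      obtain ⟨q, hq, rfl⟩ := Finset.mem_image.1 hx
      exact hAB _ (hrep q hq).1
    · intro x hx y hy hxy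
      obtain ⟨q, hq, rfl⟩ := Finset.mem_image.1 hx
      obtain ⟨q', hq', rfl⟩ := Finset.mem_image.1 hy
      have h4 : ∀ k : ℤ, rep q - rep q' ≠ k := by
        intro k hk
        apply hxy
        have h5 : f (rep q') = f (rep q) := (hf _ _).2 ⟨k, by rw [← hk]; abel⟩
        rw [(hrep q hq).2, (hrep q' hq').2] at h5
        rw [h5]
      obtain ⟨φ, hφ⟩ := hmin (rep q - rep q') h4
      refine ⟨φ, ?_⟩
      simpa using hφ
  rw [hRc] at h3
  calc (A.card : ℝ) ≤ ((⌊2 * B + 1⌋₊ * (A.image f).card : ℕ) : ℝ) := by exact_mod_cast h1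
    _ = (⌊2 * B + 1⌋₊ : ℝ) * ((A.image f).card : ℝ) := by push_cast; ring
    _ ≤ (2 * B + 1) * (1 + 2 * B / lam) ^ s := by
        apply mul_le_mul _ h3 (by positivity) (by linarith)
        exact Nat.floor_le (by linarith)

/-- the coefficients of the minimal polynomial of an algebraic integer -/
theorem coeff_bound (n : ℕ) (lam : ℝ) (β : AlgebraicClosure ℚ) (hi : IsIntegral ℤ β)
    (hn : (minpoly ℚ β).natDegree = n) (hφ : ∀ φ : AlgebraicClosure ℚ →+* ℂ, ‖φ β‖ ≤ lam) (j : ℕ) :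
    |((minpoly ℤ β).coeff j : ℝ)| ≤ lam ^ (n - j) * n.choose j := by
  have hq : minpoly ℚ β = (minpoly ℤ β).map (algebraMap ℤ ℚ) :=
    minpoly.isIntegrallyClosed_eq_field_fractions' ℚ hi
  have hiQ : IsIntegral ℚ β := hi.tower_top
  have h1 := Polynomial.coeff_le_of_roots_le (p := minpoly ℚ β) (f := algebraMap ℚ ℂ) (B := lam) j
    (minpoly.monic hiQ) (IsAlgClosed.splits _) (by
      intro z hz
      have hz' : z ∈ (minpoly ℚ β).rootSet ℂ := by
        rw [Polynomial.mem_rootSet']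
        rw [Polynomial.mem_roots'] at hz
        refine ⟨hz.1, ?_⟩
        have := hz.2
        rw [Polynomial.IsRoot.def, Polynomial.eval_map] at this
        simpa [Polynomial.aeval_def] using this
      have : Algebra.IsAlgebraic ℚ (AlgebraicClosure ℚ) := AlgebraicClosure.isAlgebraic ℚ
      rw [← Algebra.IsAlgebraic.range_eval_eq_rootSet_minpoly ℂ β] at hz'
      obtain ⟨ψ, rfl⟩ := hz'
      exact hφ ψ.toRingHom)
  rw [hn, Polynomial.coeff_map, hq, Polynomial.coeff_map] at h1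
  simpa using h1

theorem card_algebraic_integers (n : ℕ) : ∃ C : ℝ, 0 < C ∧ ∀ lam : ℝ, 1 ≤ lam →
    {β : AlgebraicClosure ℚ | IsIntegral ℤ β ∧ (minpoly ℚ β).natDegree = n ∧
      ∀ φ : AlgebraicClosure ℚ →+* ℂ, ‖φ β‖ ≤ lam}.Finite ∧
    ({β : AlgebraicClosure ℚ | IsIntegral ℤ β ∧ (minpoly ℚ β).natDegree = n ∧
      ∀ φ : AlgebraicClosure ℚ →+* ℂ, ‖φ β‖ ≤ lam}.ncard : ℝ) ≤ C * lam ^ (n * (n + 1) / 2) := by
  classical
  refine ⟨n * (∏ j : Fin n, (3 * (n.choose j : ℝ))) + 1, by positivity, fun lam hlam => ?_⟩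
  set S := {β : AlgebraicClosure ℚ | IsIntegral ℤ β ∧ (minpoly ℚ β).natDegree = n ∧
      ∀ φ : AlgebraicClosure ℚ →+* ℂ, ‖φ β‖ ≤ lam} with hS
  let M : Fin n → ℤ := fun j => ⌊lam ^ (n - (j : ℕ)) * n.choose j⌋
  let P : Finset (Fin n → ℤ) := Fintype.piFinset fun j => Finset.Icc (-M j) (M j)
  let pol : (Fin n → ℤ) → Polynomial (AlgebraicClosure ℚ) := fun c =>
    Polynomial.X ^ n + ∑ j : Fin n, Polynomial.C ((c j : AlgebraicClosure ℚ)) * Polynomial.X ^ (j : ℕ)
  have hdeg : ∀ c : Fin n → ℤ, (∑ j : Fin n, Polynomial.C ((c j : AlgebraicClosure ℚ)) *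
      Polynomial.X ^ (j : ℕ)).degree < (n : WithBot ℕ) := by
    intro c
    rw [Polynomial.degree_lt_iff_coeff_zero]
    intro m hm
    rw [Polynomial.finsetSum_coeff]
    apply Finset.sum_eq_zero
    intro j _
    rw [Polynomial.coeff_C_mul_X_pow, if_neg]
    have := j.2
    omega
  have hmon : ∀ c, (pol c).Monic := fun c => Polynomial.monic_X_pow_add (hdeg c)
  have hnat : ∀ c, (pol c).natDegree = n := by
    intro c
    exact Polynomial.natDegree_eq_of_degree_eq_some (by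
      simp only [pol]
      rw [Polynomial.degree_add_eq_left_of_degree_lt]
      · exact Polynomial.degree_X_pow n
      · rw [Polynomial.degree_X_pow]; exact hdeg c)
  have hsub : S ⊆ ((P.biUnion fun c => (pol c).roots.toFinset : Finset (AlgebraicClosure ℚ)) :
      Set (AlgebraicClosure ℚ)) := by
    intro β hβ
    obtain ⟨hi, hn, hφ⟩ := hβ
    rw [Finset.mem_coe, Finset.mem_biUnion]
    refine ⟨fun j => (minpoly ℤ β).coeff j, ?_, ?_⟩
    · rw [Fintype.mem_piFinset]
      intro j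
      have h1 := coeff_bound n lam β hi hn hφ j
      rw [abs_le] at h1
      rw [Finset.mem_Icc]
      constructor
      · have : -((minpoly ℤ β).coeff j) ≤ M j := by
          rw [Int.le_floor]
          push_cast
          linarith [h1.1]
        linarith
      · rw [Int.le_floor]
        exact h1.2
    · rw [Multiset.mem_toFinset, Polynomial.mem_roots (hmon _).ne_zero, Polynomial.IsRoot.def]
      have hq : minpoly ℚ β = (minpoly ℤ β).map (algebraMap ℤ ℚ) :=
        minpoly.isIntegrallyClosed_eq_field_fractions' ℚ hi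
      have hm := minpoly.monic hi
      have hnz : (minpoly ℤ β).natDegree = n := by
        rw [← hn, hq, hm.natDegree_map]
      have h2 : Polynomial.aeval β (minpoly ℤ β) = 0 := minpoly.aeval ℤ β
      rw [Polynomial.aeval_eq_sum_range, hnz, Finset.sum_range_succ] at h2
      have h3 : (minpoly ℤ β).coeff n = 1 := by
        rw [← hnz]; exact hm
      rw [h3] at h2
      simp only [pol]
      rw [Polynomial.eval_add, Polynomial.eval_pow, Polynomial.eval_X, Polynomial.eval_finsetSum]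
      rw [← h2, one_smul, add_comm]
      congr 1
      rw [Finset.sum_range]
      apply Finset.sum_congr rfl
      intro j _
      simp
  have hfin : S.Finite := (Finset.finite_toSet _).subset hsub
  refine ⟨hfin, ?_⟩
  have hcard : S.ncard ≤ P.card * n := by
    have h1 := Set.ncard_le_ncard hsub (Finset.finite_toSet _)
    rw [Set.ncard_coe_finset] at h1
    refine h1.trans (Finset.card_biUnion_le_card_mul _ _ _ ?_)
    intro c _
    refine (Multiset.toFinset_card_le _).trans ?_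
    exact (Polynomial.card_roots' _).trans (hnat c).le
  have hP : (P.card : ℝ) ≤ (∏ j : Fin n, (3 * (n.choose j : ℝ))) * lam ^ (n * (n + 1) / 2) := by
    have h1 : P.card = ∏ j : Fin n, (M j + 1 - -M j).toNat := by
      simp only [P, Fintype.card_piFinset, Int.card_Icc]
    rw [h1]
    push_cast
    have h2 : lam ^ (n * (n + 1) / 2) = ∏ j : Fin n, lam ^ (n - (j : ℕ)) := by
      rw [Finset.prod_pow_eq_pow_sum]
      congr 1
      have h3 : ∑ j : Fin n, (n - (j : ℕ)) = ∑ i ∈ Finset.range (n + 1), i := by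
        rw [Fin.sum_univ_eq_sum_range (fun j => n - j) n]
        rw [Finset.sum_range_succ' , add_zero]
        rw [← Finset.sum_range_reflect (fun i => i + 1) n]
        apply Finset.sum_congr rfl
        intro j hj
        rw [Finset.mem_range] at hj
        omega
      rw [h3, Finset.sum_range_id]
      congr 1
      rw [Nat.add_sub_cancel, mul_comm]
    rw [h2, ← Finset.prod_mul_distrib]
    apply Finset.prod_le_prod
    · intro j _; positivity
    · intro j _
      have hj := j.2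
      have h4 : (1 : ℝ) ≤ n.choose j := by
        exact_mod_cast Nat.choose_pos hj.le
      have h5 : (1 : ℝ) ≤ lam ^ (n - (j : ℕ)) := one_le_pow₀ hlam
      have h6 : (1 : ℝ) ≤ lam ^ (n - (j : ℕ)) * n.choose j := by nlinarith
      have h7 : 0 ≤ M j := by
        apply Int.floor_nonneg.2; linarith
      have h8 : (((M j + 1 - -M j).toNat : ℕ) : ℝ) = 2 * (M j : ℝ) + 1 := by
        have h9 : (((M j + 1 - -M j).toNat : ℕ) : ℤ) = 2 * M j + 1 := by
          rw [Int.toNat_of_nonneg (by omega)]; ring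
        have h10 : ((((M j + 1 - -M j).toNat : ℕ) : ℤ) : ℝ) = ((2 * M j + 1 : ℤ) : ℝ) := by
          rw [h9]
        push_cast at h10
        linarith
      rw [h8]
      have h11 : (M j : ℝ) ≤ lam ^ (n - (j : ℕ)) * n.choose j := Int.floor_le _
      nlinarith
  have hn0 : (0 : ℝ) ≤ n := Nat.cast_nonneg n
  have hl0 : (0 : ℝ) ≤ lam ^ (n * (n + 1) / 2) := by positivity
  calc (S.ncard : ℝ) ≤ ((P.card * n : ℕ) : ℝ) := by exact_mod_cast hcard
    _ = (P.card : ℝ) * n := by push_cast; ring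
    _ ≤ ((∏ j : Fin n, (3 * (n.choose j : ℝ))) * lam ^ (n * (n + 1) / 2)) * n :=
        mul_le_mul_of_nonneg_right hP hn0
    _ ≤ (n * (∏ j : Fin n, (3 * (n.choose j : ℝ))) + 1) * lam ^ (n * (n + 1) / 2) := by
        nlinarith

end Pool.Agent.L5helper5.NfLow
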