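import Mathlib

namespace Pool.Agent.L5helper5.NfLow

open Polynomial Module NumberField

/-- the roots of an irreducible polynomial over `𝔽₃` in a finite field are conjugate by powers of
the Frobenius -/
theorem conj_roots (k : Type) [Field k] [Finite k] [Algebra (ZMod 3) k] (h3 : (ZMod 3)[X])
    (h3i : Irreducible h3) (h3m : h3.Monic) (u v : k) (hu : aeval u h3 = 0) (hv : aeval v h3 = 0) :
    ∃ i : ℕ, v = u ^ 3 ^ i := by
  have : Fact (Nat.Prime 3) := ⟨Nat.prime_three⟩
  have hmx : minpoly (ZMod 3) u = h3 := (minpoly.eq_of_irreducible_of_monic h3i hu h3m).symm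
  have : Algebra.IsAlgebraic (ZMod 3) k := Algebra.IsAlgebraic.of_finite _ _
  obtain ⟨τ, hτ⟩ := minpoly.exists_algEquiv_of_root' (K := ZMod 3) (x := v) (y := u)
    (Algebra.IsAlgebraic.isAlgebraic _) (by rw [hmx]; exact hv)
  obtain ⟨i, hi⟩ := (FiniteField.bijective_frobeniusAlgEquivOfAlgebraic_pow (ZMod 3) k).2 τ
  refine ⟨i, ?_⟩
  rw [← hτ, ← hi]
  simp only [AlgEquiv.coe_pow, FiniteField.coe_frobeniusAlgEquivOfAlgebraic_iterate, ZMod.card]

/-- Frobenius at a prime above 3 when `f` is `X * h3` modulo 3 -/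
theorem frob (E : Type) [Field E] [NumberField E] [IsGalois ℚ E] (f : ℤ[X]) (hf : f.Monic)
    (hs : (f.map (algebraMap ℤ E)).Splits) (h3 : (ZMod 3)[X]) (h3i : Irreducible h3)
    (h3m : h3.Monic) (h30 : h3.coeff 0 ≠ 0)
    (hmod : f.map (Int.castRingHom (ZMod 3)) = X * h3) :
    ∃ (σ : Gal(E/ℚ)) (a₁ : E), aeval a₁ f = 0 ∧ σ a₁ = a₁ ∧
      ∀ a a' : E, aeval a f = 0 → aeval a' f = 0 → a ≠ a₁ → a' ≠ a₁ →
        ∃ i : ℕ, (σ ^ i) a = a' := by
  classical
  have : Fact (Nat.Prime 3) := ⟨Nat.prime_three⟩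
  -- a prime above 3
  have hPmax : (Ideal.span {((3 : ℕ) : ℤ)}).IsMaximal :=
    PrincipalIdealRing.isMaximal_of_irreducible
      (Nat.prime_iff_prime_int.1 Nat.prime_three).irreducible
  obtain ⟨Q, hQmax, hQ⟩ := Ideal.exists_ideal_over_maximal_of_isIntegral (S := 𝓞 E)
    (Ideal.span {((3 : ℕ) : ℤ)}) (by
      rw [(RingHom.injective_iff_ker_eq_bot _).1 (FaithfulSMul.algebraMap_injective ℤ (𝓞 E))]
      exact bot_le)
  have hQp : Q.IsPrime := hQmax.isPrime
  have h3Q : (3 : 𝓞 E) ∈ Q := by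
    have h1 : ((3 : ℕ) : ℤ) ∈ Q.comap (algebraMap ℤ (𝓞 E)) := by
      rw [hQ]; exact Ideal.mem_span_singleton_self _
    simpa using h1
  have hQbot : Q ≠ ⊥ := by
    intro h
    rw [h, Ideal.mem_bot] at h3Q
    exact (by exact_mod_cast (Nat.cast_ne_zero (R := 𝓞 E)).2 (by norm_num : (3 : ℕ) ≠ 0) :
      (3 : 𝓞 E) ≠ 0) h3Q
  have : Finite (𝓞 E ⧸ Q) := Ideal.finiteQuotientOfFreeOfNeBot Q hQbot
  obtain ⟨σ, hσ⟩ := IsArithFrobAt.exists_of_isInvariant ℤ Gal(E/ℚ) Q
  have hcard : Nat.card (ℤ ⧸ Q.under ℤ) = 3 := by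
    have h1 : Q.under ℤ = Ideal.span {((3 : ℕ) : ℤ)} := hQ
    rw [h1, Int.card_ideal_quot]
  obtain ⟨k, hkf, hkfin, φ, hφ3, hσ'⟩ : ∃ (k : Type) (_ : Field k) (_ : Finite k)
      (φ : 𝓞 E →+* k), φ ((3 : ℕ) : 𝓞 E) = 0 ∧ ∀ x : 𝓞 E, φ (σ • x) = φ x ^ 3 := by
    refine ⟨𝓞 E ⧸ Q, Ideal.Quotient.field Q, inferInstance, Ideal.Quotient.mk Q, ?_, ?_⟩
    · exact Ideal.Quotient.eq_zero_iff_mem.2 (by exact_mod_cast h3Q)
    · intro x
      have h1 := hσ x
      rw [hcard] at h1
      have h2 : Ideal.Quotient.mk Q (σ • x) = Ideal.Quotient.mk Q (x ^ 3) := by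
        rw [Ideal.Quotient.eq]
        exact h1
      exact h2.trans (map_pow _ _ _)
  have : CharP k 3 := by
    rw [map_natCast] at hφ3
    exact (CharP.charP_iff_prime_eq_zero Nat.prime_three).2 hφ3
  let _ : Algebra (ZMod 3) k := ZMod.algebra k 3
  -- the roots
  set s := (f.map (algebraMap ℤ E)).roots with hsdef
  have hint : ∀ a ∈ s, IsIntegral ℤ a := by
    intro a ha
    refine ⟨f, hf, ?_⟩
    have := (mem_roots'.1 ha).2
    rw [IsRoot.def, eval_map] at this
    exact this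
  have hex : ∀ a ∈ s, ∃ x : 𝓞 E, (x : E) = a := fun a ha => ⟨⟨a, hint a ha⟩, rfl⟩
  choose g hg using hex
  obtain ⟨t, hts⟩ : ∃ t : Multiset (𝓞 E), t.map (fun a : 𝓞 E => (a : E)) = s := by
    refine ⟨s.attach.map (fun a => g a.1 a.2), ?_⟩
    rw [Multiset.map_map]
    have h1 : ((fun a : 𝓞 E => (a : E)) ∘ fun a : {x // x ∈ s} => g a.1 a.2)
        = fun a : {x // x ∈ s} => a.1 := by
      funext a
      exact hg a.1 a.2
    rw [h1]
    exact Multiset.attach_map_val s
  have hprodE : f.map (algebraMap ℤ E) = (s.map fun a => X - C a).prod := by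
    have h1 := hs.eq_prod_roots
    rw [(hf.map _).leadingCoeff, C_1, one_mul] at h1
    exact h1
  have hprodO : f.map (algebraMap ℤ (𝓞 E)) = (t.map fun a => X - C a).prod := by
    apply Polynomial.map_injective (algebraMap (𝓞 E) E) (FaithfulSMul.algebraMap_injective _ _)
    rw [Polynomial.map_map, ← IsScalarTower.algebraMap_eq, hprodE, Polynomial.map_multiset_prod,
      Multiset.map_map, ← hts, Multiset.map_map]
    congr 1
    apply Multiset.map_congr rfl
    intro a _
    simp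
  have hprodk : (X * h3).map (algebraMap (ZMod 3) k) = ((t.map φ).map fun a => X - C a).prod := by
    rw [← hmod, Polynomial.map_map]
    have h1 : (algebraMap (ZMod 3) k).comp (Int.castRingHom (ZMod 3))
        = φ.comp (algebraMap ℤ (𝓞 E)) := Subsingleton.elim _ _
    rw [h1, ← Polynomial.map_map, hprodO, Polynomial.map_multiset_prod, Multiset.map_map,
      Multiset.map_map]
    congr 1
    apply Multiset.map_congr rfl
    intro a _
    simp
  have hroots : ((X * h3).map (algebraMap (ZMod 3) k)).roots = t.map φ := by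
    rw [hprodk, roots_multiset_prod_X_sub_C]
  have hsep : (X * h3 : (ZMod 3)[X]).Separable := by
    apply Separable.mul separable_X (PerfectField.separable_of_irreducible h3i)
    rw [irreducible_X.coprime_iff_not_dvd, X_dvd_iff]
    exact h30
  have hnodup : (t.map φ).Nodup := by
    rw [← hroots]
    exact nodup_roots hsep.map
  have hinj : ∀ x ∈ t, ∀ y ∈ t, φ x = φ y → x = y := by
    intro x hx y hy hxy
    exact Multiset.inj_on_of_nodup_map hnodup x hx y hy hxy
  have hmemt : ∀ x : 𝓞 E, x ∈ t ↔ aeval (x : E) f = 0 := by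
    intro x
    constructor
    · intro hx
      have h1 : (x : E) ∈ s := by rw [← hts]; exact Multiset.mem_map_of_mem _ hx
      have h2 := (mem_roots'.1 h1).2
      rw [IsRoot.def, eval_map] at h2
      exact h2
    · intro hx
      have h1 : (x : E) ∈ s := by
        rw [hsdef, mem_roots (hf.map _).ne_zero, IsRoot.def, eval_map]
        exact hx
      rw [← hts, Multiset.mem_map] at h1
      obtain ⟨y, hy, hyx⟩ := h1
      have : y = x := RingOfIntegers.ext hyx
      rwa [← this]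
  have hne0 : (X * h3).map (algebraMap (ZMod 3) k) ≠ 0 := by
    rw [hprodk]
    exact (monic_multiset_prod_of_monic _ _ fun a _ => monic_X_sub_C a).ne_zero
  -- the root reducing to zero
  have h0mem : (0 : k) ∈ t.map φ := by
    rw [← hroots, mem_roots hne0, IsRoot.def, Polynomial.map_mul, Polynomial.map_X, eval_mul,
      eval_X, zero_mul]
  obtain ⟨a1, ha1t, ha10⟩ := Multiset.mem_map.1 h0mem
  have hcoe : ∀ (τ : Gal(E/ℚ)) (x : 𝓞 E), ((τ • x : 𝓞 E) : E) = τ (x : E) := by
    intro τ x; rfl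
  have hroot : ∀ (τ : Gal(E/ℚ)) (x : 𝓞 E), x ∈ t → τ • x ∈ t := by
    intro τ x hx
    rw [hmemt] at hx ⊢
    rw [hcoe]
    have h1 : aeval (τ (x : E)) f = τ (aeval (x : E) f) :=
      Polynomial.aeval_algHom_apply ((τ : E ≃ₐ[ℚ] E).toRingEquiv.toRingHom.toIntAlgHom) (x : E) f
    rw [h1, hx, map_zero]
  have hfix : σ • a1 = a1 := by
    apply hinj _ (hroot σ a1 ha1t) _ ha1t
    rw [hσ', ha10]; simp
  refine ⟨σ, (a1 : E), (hmemt a1).1 ha1t, ?_, ?_⟩
  · rw [← hcoe, hfix]
  · intro a a' ha ha' haa1 ha'a1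
    have hia : IsIntegral ℤ a := ⟨f, hf, ha⟩
    have hia' : IsIntegral ℤ a' := ⟨f, hf, ha'⟩
    set x : 𝓞 E := ⟨a, hia⟩ with hx
    set y : 𝓞 E := ⟨a', hia'⟩ with hy
    have hxt : x ∈ t := (hmemt x).2 ha
    have hyt : y ∈ t := (hmemt y).2 ha'
    have hx0 : φ x ≠ 0 := by
      intro h
      apply haa1
      have := hinj x hxt a1 ha1t (by rw [h, ha10])
      exact congrArg (fun z : 𝓞 E => (z : E)) this
    have hy0 : φ y ≠ 0 := by
      intro h
      apply ha'a1
      have := hinj y hyt a1 ha1t (by rw [h, ha10])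
      exact congrArg (fun z : 𝓞 E => (z : E)) this
    have hroot3 : ∀ z ∈ t, φ z ≠ 0 → aeval (φ z) h3 = 0 := by
      intro z hz hz0
      have h1 : φ z ∈ ((X * h3).map (algebraMap (ZMod 3) k)).roots := by
        rw [hroots]; exact Multiset.mem_map_of_mem _ hz
      have h2 := (mem_roots'.1 h1).2
      rw [IsRoot.def, Polynomial.map_mul, Polynomial.map_X, eval_mul, eval_X, eval_map] at h2
      exact (mul_eq_zero.1 h2).resolve_left hz0
    obtain ⟨i, h5⟩ := conj_roots k h3 h3i h3m (φ x) (φ y) (hroot3 x hxt hx0) (hroot3 y hyt hy0)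
    have h6 : ∀ j : ℕ, φ (σ ^ j • x) = φ x ^ 3 ^ j := by
      intro j
      induction j with
      | zero => simp
      | succ j ih =>
        rw [pow_succ', mul_smul, hσ', ih, ← pow_mul, pow_succ]
    refine ⟨i, ?_⟩
    have h7 : σ ^ (i : ℕ) • x = y := hinj _ (hroot _ x hxt) _ hyt (by rw [h6, h5])
    have h8 := congrArg (fun z : 𝓞 E => (z : E)) h7
    exact h8

theorem no_intermediate_aux (f : ℤ[X]) (hf : f.Monic) (h3 : (ZMod 3)[X]) (h3i : Irreducible h3)
    (h3m : h3.Monic) (h30 : h3.coeff 0 ≠ 0)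
    (hmod : f.map (Int.castRingHom (ZMod 3)) = X * h3)
    (α : AlgebraicClosure ℚ) (hα : minpoly ℤ α = f)
    (L : IntermediateField ℚ (AlgebraicClosure ℚ)) [FiniteDimensional ℚ L] (γ : L)
    (hγα : (γ : AlgebraicClosure ℚ) = α) (hγgen : ∀ b : L, ∃ P : ℚ[X], b = aeval γ P)
    (K : IntermediateField ℚ L) : K = ⊥ ∨ K = ⊤ := by
  classical
  by_cases hKtop : K = ⊤
  · exact Or.inr hKtop
  left
  have hαi : IsIntegral ℤ α := by
    by_contra hcon
    rw [minpoly.eq_zero hcon] at hα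
    exact hf.ne_zero hα.symm
  have hαQ : IsIntegral ℚ α := hαi.tower_top
  have hαf : aeval α f = 0 := by rw [← hα]; exact minpoly.aeval ℤ α
  have hmQ : minpoly ℚ α = f.map (algebraMap ℤ ℚ) := by
    rw [← hα]
    exact minpoly.isIntegrallyClosed_eq_field_fractions' ℚ hαi
  -- another embedding over K
  let _ : Algebra K (AlgebraicClosure ℚ) :=
    ((algebraMap L (AlgebraicClosure ℚ)).comp (algebraMap K L)).toAlgebra
  have : IsScalarTower K L (AlgebraicClosure ℚ) := IsScalarTower.of_algebraMap_eq fun _ => rfl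
  have hfK : FiniteDimensional K L := inferInstance
  have hcardK : Fintype.card (L →ₐ[K] AlgebraicClosure ℚ) = finrank K L :=
    AlgHom.card K L (AlgebraicClosure ℚ)
  have h1lt : 1 < Fintype.card (L →ₐ[K] AlgebraicClosure ℚ) := by
    rw [hcardK]
    have h1 : finrank K L ≠ 1 := fun h => hKtop (IntermediateField.finrank_eq_one_iff_eq_top.1 h)
    have h2 : 0 < finrank K L := finrank_pos
    omega
  let ι : L →ₐ[K] AlgebraicClosure ℚ :=
    { (algebraMap L (AlgebraicClosure ℚ)) with commutes' := fun _ => rfl }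
  obtain ⟨ψ, hψ⟩ := Fintype.exists_ne_of_one_lt_card h1lt ι
  have hψP : ∀ P : ℚ[X], ψ (aeval γ P) = aeval (ψ γ) P := by
    intro P
    exact (Polynomial.aeval_algHom_apply ((ψ : L →+* AlgebraicClosure ℚ).toRatAlgHom) γ P).symm
  have hcoeP : ∀ P : ℚ[X], ((aeval γ P : L) : AlgebraicClosure ℚ) = aeval α P := by
    intro P
    have h1 := Polynomial.aeval_algHom_apply (IntermediateField.val L) γ P
    have h2 : (IntermediateField.val L) γ = α := hγα
    rw [h2] at h1
    exact h1.symm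
  have hne : ψ γ ≠ α := by
    intro h
    apply hψ
    ext b
    obtain ⟨P, rfl⟩ := hγgen b
    rw [hψP, h]
    exact (hcoeP P).symm
  have hα'f : aeval (ψ γ) f = 0 := by
    have h1 : aeval γ f = 0 := by
      apply (algebraMap L (AlgebraicClosure ℚ)).injective
      rw [map_zero, ← Polynomial.aeval_algebraMap_apply]
      have h2 : algebraMap L (AlgebraicClosure ℚ) γ = α := hγα
      rw [h2]
      exact hαf
    have h3 := Polynomial.aeval_algHom_apply ((ψ : L →+* AlgebraicClosure ℚ).toIntAlgHom) γ f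
    rw [h1, map_zero] at h3
    exact h3
  -- the splitting field
  set fQ : ℚ[X] := f.map (algebraMap ℤ ℚ) with hfQ
  set E := IntermediateField.adjoin ℚ (fQ.rootSet (AlgebraicClosure ℚ)) with hE
  have hsplit : fQ.IsSplittingField ℚ E :=
    IntermediateField.adjoin_rootSet_isSplittingField (IsAlgClosed.splits _)
  have hfdE : FiniteDimensional ℚ E := IsSplittingField.finiteDimensional E fQ
  have hnumE : NumberField E := { to_charZero := inferInstance, to_finiteDimensional := hfdE }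
  have hnorm : Normal ℚ E := Normal.of_isSplittingField fQ
  have hgal : IsGalois ℚ E := { to_isSeparable := inferInstance, to_normal := hnorm }
  have hsE : (f.map (algebraMap ℤ E)).Splits := by
    have h1 := hsplit.splits'
    rw [hfQ, Polynomial.map_map, ← IsScalarTower.algebraMap_eq] at h1
    exact h1
  obtain ⟨σ, a₁, ha₁, hσa₁, htrans⟩ := frob E f hf hsE h3 h3i h3m h30 hmod
  have hfQ0 : fQ ≠ 0 := (hf.map _).ne_zero
  have hmemE : ∀ x : AlgebraicClosure ℚ, aeval x f = 0 → x ∈ E := by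
    intro x hx
    apply IntermediateField.subset_adjoin
    rw [mem_rootSet]
    refine ⟨hfQ0, ?_⟩
    rw [hfQ, aeval_map_algebraMap]
    exact hx
  set αE : E := ⟨α, hmemE α hαf⟩ with hαE
  set α'E : E := ⟨ψ γ, hmemE _ hα'f⟩ with hα'E
  have hEf : ∀ x : E, aeval x f = 0 ↔ aeval (x : AlgebraicClosure ℚ) f = 0 := by
    intro x
    have h1 : aeval (x : AlgebraicClosure ℚ) f = algebraMap E (AlgebraicClosure ℚ) (aeval x f) :=
      Polynomial.aeval_algebraMap_apply (AlgebraicClosure ℚ) x f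
    rw [h1]
    constructor
    · intro h; rw [h, map_zero]
    · intro h
      exact (map_eq_zero_iff _ (algebraMap E (AlgebraicClosure ℚ)).injective).1 h
  have hEP : ∀ (x : E) (P : ℚ[X]), ((aeval x P : E) : AlgebraicClosure ℚ)
      = aeval (x : AlgebraicClosure ℚ) P := by
    intro x P
    exact (Polynomial.aeval_algebraMap_apply (AlgebraicClosure ℚ) x P).symm
  have hαEf : aeval αE f = 0 := (hEf αE).2 hαf
  have hα'Ef : aeval α'E f = 0 := (hEf α'E).2 hα'f
  have hτP : ∀ (τ : Gal(E/ℚ)) (x : E) (P : ℚ[X]), τ (aeval x P) = aeval (τ x) P := by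
    intro τ x P
    exact (Polynomial.aeval_algHom_apply (τ : E →ₐ[ℚ] E) x P).symm
  have hτf : ∀ (τ : Gal(E/ℚ)) (x : E), aeval x f = 0 → aeval (τ x) f = 0 := by
    intro τ x hx
    have h1 := hτP τ x fQ
    rw [hfQ, aeval_map_algebraMap, aeval_map_algebraMap, hx, map_zero] at h1
    exact h1.symm
  have hmE : minpoly ℚ αE = fQ := by
    rw [← hmQ]
    exact (minpoly.algebraMap_eq (algebraMap E (AlgebraicClosure ℚ)).injective αE).symm
  obtain ⟨τ, hτ⟩ := minpoly.exists_algEquiv_of_root' (K := ℚ) (x := a₁) (y := αE)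
    (Algebra.IsAlgebraic.isAlgebraic _) (by
      rw [hmE, hfQ, aeval_map_algebraMap]; exact ha₁)
  have hneE : τ α'E ≠ a₁ := by
    intro h
    rw [← hτ] at h
    have h1 := τ.injective h
    exact hne (congrArg (fun z : E => (z : AlgebraicClosure ℚ)) h1)
  rw [eq_bot_iff]
  intro b hb
  obtain ⟨P, rfl⟩ := hγgen b
  -- value at the two roots
  have hPP : aeval α P = aeval (ψ γ) P := by
    have h1 : ψ (aeval γ P) = ((aeval γ P : L) : AlgebraicClosure ℚ) :=
      ψ.commutes (⟨aeval γ P, hb⟩ : K)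
    rw [hψP] at h1
    rw [h1, hcoeP]
  have hPE : aeval αE P = aeval α'E P := by
    apply Subtype.ext
    rw [hEP, hEP]
    exact hPP
  have hPa : aeval a₁ P = aeval (τ α'E) P := by
    rw [← hτ, ← hτP, ← hτP, hPE]
  have hall : ∀ a : E, aeval a f = 0 → aeval a P = aeval a₁ P := by
    intro a ha
    by_cases haa : a = a₁
    · rw [haa]
    · obtain ⟨i, hi⟩ := htrans (τ α'E) a (hτf τ _ hα'Ef) ha hneE haa
      have hfixi : (σ ^ i) a₁ = a₁ := by
        induction i with
        | zero => rfl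
        | succ i ih =>
          clear hi
          have : ∀ j : ℕ, (σ ^ j) a₁ = a₁ := by
            intro j
            induction j with
            | zero => rfl
            | succ j ihj => rw [pow_succ, AlgEquiv.mul_apply, hσa₁, ihj]
          exact this _
      have h1 := hτP (σ ^ i) a₁ P
      have h2 := hτP (σ ^ i) (τ α'E) P
      rw [hfixi] at h1
      rw [hi] at h2
      rw [← h2, ← hPa, h1]
  have hfixed : ∀ g : Gal(E/ℚ), g (aeval αE P) = aeval αE P := by
    intro g
    rw [hτP, hall _ (hτf g _ hαEf), hall _ hαEf]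
  have hbot := (IsGalois.mem_bot_iff_fixed (F := ℚ) (aeval αE P)).2 hfixed
  rw [IntermediateField.mem_bot] at hbot
  obtain ⟨q, hq⟩ := hbot
  rw [IntermediateField.mem_bot]
  refine ⟨q, ?_⟩
  apply Subtype.ext
  rw [hcoeP]
  have h1 := congrArg (fun z : E => (z : AlgebraicClosure ℚ)) hq
  simp only [hEP] at h1
  rw [← h1]
  simp

theorem no_intermediate (f : ℤ[X]) (hf : f.Monic) (h3 : (ZMod 3)[X]) (h3i : Irreducible h3)
    (h3m : h3.Monic) (h30 : h3.coeff 0 ≠ 0)
    (hmod : f.map (Int.castRingHom (ZMod 3)) = X * h3)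
    (α : AlgebraicClosure ℚ) (hα : minpoly ℤ α = f)
    (K : IntermediateField ℚ (IntermediateField.adjoin ℚ {α})) : K = ⊥ ∨ K = ⊤ := by
  have hαi : IsIntegral ℤ α := by
    by_contra hcon
    rw [minpoly.eq_zero hcon] at hα
    exact hf.ne_zero hα.symm
  have hαQ : IsIntegral ℚ α := hαi.tower_top
  have hfd : FiniteDimensional ℚ (IntermediateField.adjoin ℚ {α}) :=
    IntermediateField.adjoin.finiteDimensional hαQ
  refine no_intermediate_aux f hf h3 h3i h3m h30 hmod α hα _
    (IntermediateField.AdjoinSimple.gen ℚ α) (IntermediateField.AdjoinSimple.coe_gen ℚ α) ?_ K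
  intro b
  obtain ⟨P, hP⟩ := (IntermediateField.adjoin.powerBasis hαQ).exists_eq_aeval' b
  refine ⟨P, ?_⟩
  rw [IntermediateField.adjoin.powerBasis_gen] at hP
  exact hP

/-- a monic irreducible polynomial of degree `n` over `ZMod p` and a monic integer lift -/
theorem exists_lift (p : ℕ) [Fact p.Prime] (n : ℕ) (hn : n ≠ 0) :
    ∃ H : ℤ[X], H.Monic ∧ H.natDegree = n ∧ Irreducible (H.map (Int.castRingHom (ZMod p))) := by
  obtain ⟨x, hx⟩ := Field.exists_primitive_element (ZMod p) (GaloisField p n)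
  have hxi : IsIntegral (ZMod p) x := Algebra.IsIntegral.isIntegral x
  have hdeg : (minpoly (ZMod p) x).natDegree = n := by
    rw [← IntermediateField.adjoin.finrank hxi, hx, IntermediateField.finrank_top',
      GaloisField.finrank p hn]
  have hlift : minpoly (ZMod p) x ∈ Polynomial.lifts (Int.castRingHom (ZMod p)) := by
    have hsurj : Function.Surjective (Int.castRingHom (ZMod p)) := ZMod.intCast_surjective
    rw [Polynomial.mem_lifts]
    exact Polynomial.map_surjective _ hsurj _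
  obtain ⟨H, hH, hHd, hHm⟩ := Polynomial.lifts_and_natDegree_eq_and_monic hlift (minpoly.monic hxi)
  exact ⟨H, hHm, by rw [hHd, hdeg], by rw [hH]; exact minpoly.irreducible hxi⟩

theorem exists_residue (n : ℕ) (hn : 3 ≤ n) : ∃ f0 : ℤ[X], f0.Monic ∧ f0.natDegree = n ∧
    ∀ f : ℤ[X], f.Monic → (∃ g, f = f0 + C ((6 : ℕ) : ℤ) * g) → Irreducible f ∧
      ∀ α : AlgebraicClosure ℚ, minpoly ℤ α = f →
        ∀ K : IntermediateField ℚ (IntermediateField.adjoin ℚ {α}), K = ⊥ ∨ K = ⊤ := by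
  have h2p : Fact (Nat.Prime 2) := ⟨Nat.prime_two⟩
  have h3p : Fact (Nat.Prime 3) := ⟨Nat.prime_three⟩
  obtain ⟨F2, hF2m, hF2d, hF2i⟩ := exists_lift 2 n (by omega)
  obtain ⟨H3, hH3m, hH3d, hH3i⟩ := exists_lift 3 (n - 1) (by omega)
  have hF3m : (X * H3).Monic := monic_X.mul hH3m
  have hF3d : (X * H3).natDegree = n := by
    rw [monic_X.natDegree_mul hH3m, natDegree_X, hH3d]; omega
  have hc : (3 * F2 - 2 * (X * H3) : ℤ[X]).coeff n = 1 := by
    have h1 : (3 : ℤ[X]) = C 3 := rfl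
    have h2 : (2 : ℤ[X]) = C 2 := rfl
    rw [h1, h2, coeff_sub, coeff_C_mul, coeff_C_mul]
    have h3 : F2.coeff n = 1 := by rw [← hF2d]; exact hF2m
    have h4 : (X * H3).coeff n = 1 := by
      have := hF3m.coeff_natDegree
      rwa [hF3d] at this
    rw [h3, h4]; norm_num
  have hdle : (3 * F2 - 2 * (X * H3) : ℤ[X]).natDegree ≤ n := by
    refine (natDegree_sub_le _ _).trans (max_le ?_ ?_)
    · refine natDegree_mul_le.trans ?_
      rw [hF2d, show (3 : ℤ[X]) = C 3 from rfl, natDegree_C, zero_add]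
    · refine natDegree_mul_le.trans ?_
      rw [hF3d, show (2 : ℤ[X]) = C 2 from rfl, natDegree_C, zero_add]
  have hmon : (3 * F2 - 2 * (X * H3) : ℤ[X]).Monic := monic_of_natDegree_le_of_coeff_eq_one n hdle hc
  have hdeg : (3 * F2 - 2 * (X * H3) : ℤ[X]).natDegree = n := by
    apply le_antisymm hdle
    apply le_natDegree_of_ne_zero
    rw [hc]; norm_num
  refine ⟨3 * F2 - 2 * (X * H3), hmon, hdeg, ?_⟩
  rintro f hf ⟨g, hg⟩
  have hmod2 : f.map (Int.castRingHom (ZMod 2)) = F2.map (Int.castRingHom (ZMod 2)) := by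
    have h1 : (3 * F2 - 2 * (X * H3) + C ((6 : ℕ) : ℤ) * g : ℤ[X])
        = F2 + C 2 * (F2 - X * H3 + C 3 * g) := by
      have e1 : (3 : ℤ[X]) = C 3 := rfl
      have e2 : (2 : ℤ[X]) = C 2 := rfl
      have e3 : (C ((6 : ℕ) : ℤ) : ℤ[X]) = 6 := rfl
      rw [e3, ← e1, ← e2]
      ring
    rw [hg, h1, Polynomial.map_add, Polynomial.map_mul, Polynomial.map_C]
    have h2 : (Int.castRingHom (ZMod 2)) 2 = 0 := rfl
    rw [h2, C_0, zero_mul, add_zero]
  have hmod3 : f.map (Int.castRingHom (ZMod 3)) = X * H3.map (Int.castRingHom (ZMod 3)) := by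
    have h1 : (3 * F2 - 2 * (X * H3) + C ((6 : ℕ) : ℤ) * g : ℤ[X])
        = X * H3 + C 3 * (F2 - X * H3 + C 2 * g) := by
      have e1 : (3 : ℤ[X]) = C 3 := rfl
      have e2 : (2 : ℤ[X]) = C 2 := rfl
      have e3 : (C ((6 : ℕ) : ℤ) : ℤ[X]) = 6 := rfl
      rw [e3, ← e1, ← e2]
      ring
    rw [hg, h1, Polynomial.map_add, Polynomial.map_mul, Polynomial.map_mul, Polynomial.map_C,
      Polynomial.map_X]
    have h2 : (Int.castRingHom (ZMod 3)) 3 = 0 := rfl
    rw [h2, C_0, zero_mul, add_zero]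
  have hH30 : (H3.map (Int.castRingHom (ZMod 3))).coeff 0 ≠ 0 := by
    intro h
    rw [← X_dvd_iff] at h
    obtain ⟨q, hq⟩ := h
    have h1 := hH3i.isUnit_or_isUnit hq
    rcases h1 with h1 | h1
    · exact not_isUnit_X h1
    · have h2 : (H3.map (Int.castRingHom (ZMod 3))).natDegree = n - 1 := by
        rw [hH3m.natDegree_map, hH3d]
      rw [hq, natDegree_X_mul h1.ne_zero, natDegree_eq_zero_of_isUnit h1] at h2
      omega
  refine ⟨?_, ?_⟩
  · apply hf.irreducible_of_irreducible_map (Int.castRingHom (ZMod 2))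
    rw [hmod2]
    exact hF2i
  · intro α hα K
    exact no_intermediate f hf (H3.map (Int.castRingHom (ZMod 3))) hH3i (hH3m.map _) hH30 hmod3
      α hα K

end Pool.Agent.L5helper5.NfLow
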