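import Pool.Agent.L5helper5.NfLow.Res

namespace Pool.Agent.L5helper5.NfLow

open Polynomial Module NumberField

/-- the roots of an irreducible polynomial over `𝔽_p` in a finite field are conjugate by powers of
the Frobenius -/
theorem conj_roots_p (p : ℕ) [Fact p.Prime] (k : Type) [Field k] [Finite k] [Algebra (ZMod p) k]
    (h : (ZMod p)[X]) (hi : Irreducible h) (hm : h.Monic) (u v : k) (hu : aeval u h = 0)
    (hv : aeval v h = 0) : ∃ i : ℕ, v = u ^ p ^ i := by
  have hmx : minpoly (ZMod p) u = h := (minpoly.eq_of_irreducible_of_monic hi hu hm).symm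
  have : Algebra.IsAlgebraic (ZMod p) k := Algebra.IsAlgebraic.of_finite _ _
  obtain ⟨τ, hτ⟩ := minpoly.exists_algEquiv_of_root' (K := ZMod p) (x := v) (y := u)
    (Algebra.IsAlgebraic.isAlgebraic _) (by rw [hmx]; exact hv)
  obtain ⟨i, hi⟩ := (FiniteField.bijective_frobeniusAlgEquivOfAlgebraic_pow (ZMod p) k).2 τ
  refine ⟨i, ?_⟩
  rw [← hτ, ← hi]
  simp only [AlgEquiv.coe_pow, FiniteField.coe_frobeniusAlgEquivOfAlgebraic_iterate, ZMod.card]

theorem pow_root (p : ℕ) [Fact p.Prime] (k : Type) [Field k] [Finite k] [Algebra (ZMod p) k]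
    (h : (ZMod p)[X]) (hi : Irreducible h) (hm : h.Monic) (u : k) (hu : aeval u h = 0) :
    u ^ p ^ h.natDegree = u := by
  classical
  have hmx : minpoly (ZMod p) u = h := (minpoly.eq_of_irreducible_of_monic hi hu hm).symm
  have hui : IsIntegral (ZMod p) u := Algebra.IsIntegral.isIntegral u
  set F := IntermediateField.adjoin (ZMod p) {u} with hF
  have hfin : Finite F := inferInstance
  have : Fintype F := Fintype.ofFinite F
  have hfd : FiniteDimensional (ZMod p) F := IntermediateField.adjoin.finiteDimensional hui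
  have hcard : Fintype.card F = p ^ h.natDegree := by
    have h1 := Module.card_eq_pow_finrank (K := ZMod p) (V := F)
    have h2 : finrank (ZMod p) F = h.natDegree := by
      rw [hF, IntermediateField.adjoin.finrank hui, hmx]
    rw [ZMod.card, h2] at h1
    exact h1
  have h2 := FiniteField.pow_card (⟨u, IntermediateField.mem_adjoin_simple_self _ u⟩ : F)
  rw [hcard] at h2
  exact congrArg (fun z : F => (z : k)) h2

theorem root_quad (p : ℕ) [Fact p.Prime] (k : Type) [Field k] [Finite k] [Algebra (ZMod p) k]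
    (h : (ZMod p)[X]) (hi : Irreducible h) (hd : h.natDegree = 2) (u : k)
    (hu : aeval u h = 0) : u ^ p ≠ u := by
  intro hup
  have : Algebra.IsAlgebraic (ZMod p) k := Algebra.IsAlgebraic.of_finite _ _
  have hfix : ∀ g : Gal(k/ZMod p), g u = u := by
    intro g
    obtain ⟨i, hi⟩ := (FiniteField.bijective_frobeniusAlgEquivOfAlgebraic_pow (ZMod p) k).2 g
    rw [← hi]
    simp only [AlgEquiv.coe_pow, FiniteField.coe_frobeniusAlgEquivOfAlgebraic_iterate, ZMod.card]
    have : ∀ j : ℕ, u ^ p ^ j = u := by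
      intro j
      induction j with
      | zero => simp
      | succ j ih => rw [pow_succ, pow_mul, ih, hup]
    exact this _
  have hbot := (IsGalois.mem_bot_iff_fixed (F := ZMod p) u).2 hfix
  rw [IntermediateField.mem_bot] at hbot
  obtain ⟨c, hc⟩ := hbot
  rw [← hc, aeval_algebraMap_apply] at hu
  have hc0 : aeval c h = 0 := (map_eq_zero_iff _ (algebraMap (ZMod p) k).injective).1 hu
  have h1 := degree_eq_one_of_irreducible_of_root hi (x := c) (by
    rw [IsRoot.def, ← coe_aeval_eq_eval]; exact hc0)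
  rw [degree_eq_natDegree hi.ne_zero, hd] at h1
  exact absurd h1 (by decide)

/-- Frobenius at a prime above `p` when `f` is squarefree modulo `p` -/
theorem frob_gen (p : ℕ) [hp : Fact p.Prime] (E : Type) [Field E] [NumberField E] [IsGalois ℚ E]
    (f : ℤ[X]) (hf : f.Monic)
    (hs : (f.map (algebraMap ℤ E)).Splits)
    (hsep : (f.map (Int.castRingHom (ZMod p))).Separable) :
    ∃ (σ : Gal(E/ℚ)) (k : Type) (_ : Field k) (_ : Finite k) (_ : Algebra (ZMod p) k) (ρ : E → k),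
      ((f.map (Int.castRingHom (ZMod p))).map (algebraMap (ZMod p) k)).Splits ∧
      (∀ a, aeval a f = 0 → aeval (ρ a) (f.map (Int.castRingHom (ZMod p))) = 0) ∧
      (∀ a b, aeval a f = 0 → aeval b f = 0 → ρ a = ρ b → a = b) ∧
      (∀ u : k, aeval u (f.map (Int.castRingHom (ZMod p))) = 0 → ∃ a, aeval a f = 0 ∧ ρ a = u) ∧
      (∀ a, aeval a f = 0 → ρ (σ a) = ρ a ^ p) := by
  classical
  have hpr : p.Prime := hp.out
  -- a prime above p
  have hPmax : (Ideal.span {((p : ℕ) : ℤ)}).IsMaximal :=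
    PrincipalIdealRing.isMaximal_of_irreducible
      (Nat.prime_iff_prime_int.1 hpr).irreducible
  obtain ⟨Q, hQmax, hQ⟩ := Ideal.exists_ideal_over_maximal_of_isIntegral (S := 𝓞 E)
    (Ideal.span {((p : ℕ) : ℤ)}) (by
      rw [(RingHom.injective_iff_ker_eq_bot _).1 (FaithfulSMul.algebraMap_injective ℤ (𝓞 E))]
      exact bot_le)
  have hQp : Q.IsPrime := hQmax.isPrime
  have hpQ : ((p : ℕ) : 𝓞 E) ∈ Q := by
    have h1 : ((p : ℕ) : ℤ) ∈ Q.comap (algebraMap ℤ (𝓞 E)) := by
      rw [hQ]; exact Ideal.mem_span_singleton_self _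
    simpa using h1
  have hQbot : Q ≠ ⊥ := by
    intro h
    rw [h, Ideal.mem_bot] at hpQ
    exact (Nat.cast_ne_zero (R := 𝓞 E)).2 hpr.ne_zero hpQ
  have : Finite (𝓞 E ⧸ Q) := Ideal.finiteQuotientOfFreeOfNeBot Q hQbot
  obtain ⟨σ, hσ⟩ := IsArithFrobAt.exists_of_isInvariant ℤ Gal(E/ℚ) Q
  have hcard : Nat.card (ℤ ⧸ Q.under ℤ) = p := by
    have h1 : Q.under ℤ = Ideal.span {((p : ℕ) : ℤ)} := hQ
    rw [h1, Int.card_ideal_quot]
  obtain ⟨k, hkf, hkfin, φ, hφp, hσ'⟩ : ∃ (k : Type) (_ : Field k) (_ : Finite k)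
      (φ : 𝓞 E →+* k), φ ((p : ℕ) : 𝓞 E) = 0 ∧ ∀ x : 𝓞 E, φ (σ • x) = φ x ^ p := by
    refine ⟨𝓞 E ⧸ Q, Ideal.Quotient.field Q, inferInstance, Ideal.Quotient.mk Q, ?_, ?_⟩
    · exact Ideal.Quotient.eq_zero_iff_mem.2 (by exact_mod_cast hpQ)
    · intro x
      have h1 := hσ x
      rw [hcard] at h1
      have h2 : Ideal.Quotient.mk Q (σ • x) = Ideal.Quotient.mk Q (x ^ p) := by
        rw [Ideal.Quotient.eq]
        exact h1
      exact h2.trans (map_pow _ _ _)
  have : CharP k p := by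
    rw [map_natCast] at hφp
    exact (CharP.charP_iff_prime_eq_zero hpr).2 hφp
  let _ : Algebra (ZMod p) k := ZMod.algebra k p
  -- the roots
  set s := (f.map (algebraMap ℤ E)).roots with hsdef
  have hint : ∀ a ∈ s, IsIntegral ℤ a := by
    intro a ha
    refine ⟨f, hf, ?_⟩
    have := (mem_roots'.1 ha).2
    rw [IsRoot.def, eval_map] at this
    exact this
  have hex : ∀ a ∈ s, ∃ x : 𝓞 E, (x : E) = a := fun a ha => ⟨⟨a, hint a ha⟩, rfl⟩
  choose g hg using hex
  obtain ⟨t, hts⟩ : ∃ t : Multiset (𝓞 E), t.map (fun a : 𝓞 E => (a : E)) = s := by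
    refine ⟨s.attach.map (fun a => g a.1 a.2), ?_⟩
    rw [Multiset.map_map]
    have h1 : ((fun a : 𝓞 E => (a : E)) ∘ fun a : {x // x ∈ s} => g a.1 a.2)
        = fun a : {x // x ∈ s} => a.1 := by
      funext a
      exact hg a.1 a.2
    rw [h1]
    exact Multiset.attach_map_val s
  have hprodE : f.map (algebraMap ℤ E) = (s.map fun a => X - C a).prod := by
    have h1 := hs.eq_prod_roots
    rw [(hf.map _).leadingCoeff, C_1, one_mul] at h1
    exact h1
  have hprodO : f.map (algebraMap ℤ (𝓞 E)) = (t.map fun a => X - C a).prod := by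
    apply Polynomial.map_injective (algebraMap (𝓞 E) E) (FaithfulSMul.algebraMap_injective _ _)
    rw [Polynomial.map_map, ← IsScalarTower.algebraMap_eq, hprodE, Polynomial.map_multiset_prod,
      Multiset.map_map, ← hts, Multiset.map_map]
    congr 1
    apply Multiset.map_congr rfl
    intro a _
    simp
  set fb := f.map (Int.castRingHom (ZMod p)) with hfb
  have hprodk : fb.map (algebraMap (ZMod p) k) = ((t.map φ).map fun a => X - C a).prod := by
    rw [hfb, Polynomial.map_map]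
    have h1 : (algebraMap (ZMod p) k).comp (Int.castRingHom (ZMod p))
        = φ.comp (algebraMap ℤ (𝓞 E)) := Subsingleton.elim _ _
    rw [h1, ← Polynomial.map_map, hprodO, Polynomial.map_multiset_prod, Multiset.map_map,
      Multiset.map_map]
    congr 1
    apply Multiset.map_congr rfl
    intro a _
    simp
  have hroots : (fb.map (algebraMap (ZMod p) k)).roots = t.map φ := by
    rw [hprodk, roots_multiset_prod_X_sub_C]
  have hnodup : (t.map φ).Nodup := by
    rw [← hroots]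
    exact nodup_roots hsep.map
  have hinj : ∀ x ∈ t, ∀ y ∈ t, φ x = φ y → x = y := by
    intro x hx y hy hxy
    exact Multiset.inj_on_of_nodup_map hnodup x hx y hy hxy
  have hmemt : ∀ x : 𝓞 E, x ∈ t ↔ aeval (x : E) f = 0 := by
    intro x
    constructor
    · intro hx
      have h1 : (x : E) ∈ s := by rw [← hts]; exact Multiset.mem_map_of_mem _ hx
      have h2 := (mem_roots'.1 h1).2
      rw [IsRoot.def, eval_map] at h2
      exact h2
    · intro hx
      have h1 : (x : E) ∈ s := by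
        rw [hsdef, mem_roots (hf.map _).ne_zero, IsRoot.def, eval_map]
        exact hx
      rw [← hts, Multiset.mem_map] at h1
      obtain ⟨y, hy, hyx⟩ := h1
      have : y = x := RingOfIntegers.ext hyx
      rwa [← this]
  have hne0 : fb.map (algebraMap (ZMod p) k) ≠ 0 := by
    rw [hprodk]
    exact (monic_multiset_prod_of_monic _ _ fun a _ => monic_X_sub_C a).ne_zero
  have hcoe : ∀ (τ : Gal(E/ℚ)) (x : 𝓞 E), ((τ • x : 𝓞 E) : E) = τ (x : E) := by
    intro τ x; rfl
  have hintE : ∀ a : E, aeval a f = 0 → IsIntegral ℤ a := fun a ha => ⟨f, hf, ha⟩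
  refine ⟨σ, k, hkf, hkfin, inferInstance,
    fun a => if h : IsIntegral ℤ a then φ ⟨a, h⟩ else 0, ?_, ?_, ?_, ?_, ?_⟩
  · rw [hprodk]
    exact Splits.multisetProd (by
      intro q hq
      obtain ⟨a, _, rfl⟩ := Multiset.mem_map.1 hq
      exact Splits.X_sub_C a)
  · intro a ha
    have h1 := hintE a ha
    simp only [dif_pos h1]
    have h2 : φ ⟨a, h1⟩ ∈ (fb.map (algebraMap (ZMod p) k)).roots := by
      rw [hroots]; exact Multiset.mem_map_of_mem _ ((hmemt ⟨a, h1⟩).2 ha)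
    have h3 := (mem_roots'.1 h2).2
    rw [IsRoot.def, eval_map] at h3
    exact h3
  · intro a b ha hb hab
    have h1 := hintE a ha
    have h2 := hintE b hb
    simp only [dif_pos h1, dif_pos h2] at hab
    have h3 := hinj ⟨a, h1⟩ ((hmemt ⟨a, h1⟩).2 ha) ⟨b, h2⟩ ((hmemt ⟨b, h2⟩).2 hb) hab
    exact congrArg (fun z : 𝓞 E => (z : E)) h3
  · intro u hu
    have h1 : u ∈ (fb.map (algebraMap (ZMod p) k)).roots := by
      rw [mem_roots hne0, IsRoot.def, eval_map]
      exact hu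
    rw [hroots, Multiset.mem_map] at h1
    obtain ⟨x, hx, hxu⟩ := h1
    refine ⟨x, (hmemt x).1 hx, ?_⟩
    have h2 : IsIntegral ℤ (x : E) := hintE _ ((hmemt x).1 hx)
    simp only [dif_pos h2]
    rw [← hxu]
    rfl
  · intro a ha
    have h1 := hintE a ha
    have h2 : IsIntegral ℤ (σ a) := h1.map ((σ : E →+* E).toIntAlgHom)
    simp only [dif_pos h1, dif_pos h2]
    exact hσ' ⟨a, h1⟩

theorem transposition (E : Type) [Field E] [NumberField E] [IsGalois ℚ E] (f : ℤ[X])
    (hf : f.Monic) (hs : (f.map (algebraMap ℤ E)).Splits) (h2 hm : (ZMod 5)[X]) (e m : ℕ)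
    (he : e ≤ 1) (hm3 : 3 ≤ m) (hmodd : Odd m) (h2i : Irreducible h2) (h2m : h2.Monic)
    (h2d : h2.natDegree = 2) (hmi : Irreducible hm) (hmm : hm.Monic) (hmd : hm.natDegree = m)
    (hmod : f.map (Int.castRingHom (ZMod 5)) = h2 * (X ^ e * hm)) :
    ∃ (τ : Gal(E/ℚ)) (b₁ b₂ : E), aeval b₁ f = 0 ∧ aeval b₂ f = 0 ∧ b₁ ≠ b₂ ∧ τ b₁ = b₂ ∧
      τ b₂ = b₁ ∧ ∀ a, aeval a f = 0 → a ≠ b₁ → a ≠ b₂ → τ a = a := by
  have h5p : Fact (Nat.Prime 5) := ⟨Nat.prime_five⟩
  have hXe : ((X : (ZMod 5)[X]) ^ e).natDegree = e := natDegree_X_pow e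
  have hXe0 : ((X : (ZMod 5)[X]) ^ e) ≠ 0 := (monic_X_pow e).ne_zero
  have hc1 : ¬ h2 ∣ X ^ e := by
    intro h
    have := natDegree_le_of_dvd h hXe0
    rw [hXe, h2d] at this
    omega
  have hc2 : ¬ h2 ∣ hm := by
    intro h
    have h1 := (h2i.associated_of_dvd hmi h)
    have h3 := natDegree_eq_of_degree_eq (degree_eq_degree_of_associated h1)
    rw [h2d, hmd] at h3
    omega
  have hc3 : ¬ hm ∣ X ^ e := by
    intro h
    have := natDegree_le_of_dvd h hXe0
    rw [hXe, hmd] at this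
    omega
  have hsepX : ((X : (ZMod 5)[X]) ^ e).Separable := by
    interval_cases e
    · rw [pow_zero]; exact separable_one
    · rw [pow_one]; exact separable_X
  have hsep : (f.map (Int.castRingHom (ZMod 5))).Separable := by
    rw [hmod]
    apply Separable.mul (PerfectField.separable_of_irreducible h2i)
    · apply Separable.mul hsepX (PerfectField.separable_of_irreducible hmi)
      exact ((hmi.coprime_iff_not_dvd).2 hc3).symm
    · rw [h2i.coprime_iff_not_dvd]
      intro h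
      rcases h2i.prime.dvd_or_dvd h with h | h
      · exact hc1 h
      · exact hc2 h
  obtain ⟨σ, k, hkf, hkfin, halg, ρ, hspl, hρ, hρinj, hρsurj, hρσ⟩ := frob_gen 5 E f hf hs hsep
  rw [hmod] at hspl hρ hρsurj
  -- a root of `h2`
  have hne : ((h2 * (X ^ e * hm)).map (algebraMap (ZMod 5) k)) ≠ 0 := by
    apply (Polynomial.map_ne_zero_iff (algebraMap (ZMod 5) k).injective).2
    exact mul_ne_zero h2i.ne_zero (mul_ne_zero hXe0 hmi.ne_zero)
  have h2s : (h2.map (algebraMap (ZMod 5) k)).Splits := by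
    apply hspl.of_dvd hne
    rw [Polynomial.map_mul]
    exact dvd_mul_right _ _
  obtain ⟨u, hu⟩ := h2s.exists_eval_eq_zero (by
    rw [degree_map, degree_eq_natDegree h2i.ne_zero, h2d]; decide)
  rw [eval_map] at hu
  replace hu : aeval u h2 = 0 := hu
  have hu25 : u ^ 5 ^ 2 = u := by
    have := pow_root 5 k h2 h2i h2m u hu
    rwa [h2d] at this
  have hu5 : u ^ 5 ≠ u := root_quad 5 k h2 h2i h2d u hu
  have hu' : aeval (u ^ 5) h2 = 0 := by
    have h1 := Polynomial.aeval_algHom_apply (FiniteField.frobeniusAlgHom (ZMod 5) k) u h2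
    rw [FiniteField.coe_frobeniusAlgHom, hu] at h1
    simp only [ZMod.card] at h1
    rw [h1]; simp
  have hpar : ∀ i : ℕ, u ^ 5 ^ (2 * i) = u := by
    intro i
    induction i with
    | zero => simp
    | succ i ih => rw [mul_add, mul_one, pow_add, pow_mul, ih, hu25]
  have hroots2 : ∀ v : k, aeval v h2 = 0 → v = u ∨ v = u ^ 5 := by
    intro v hv
    obtain ⟨i, hi⟩ := conj_roots_p 5 k h2 h2i h2m u v hu hv
    rcases Nat.even_or_odd' i with ⟨j, hj | hj⟩
    · left; rw [hi, hj, hpar]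
    · right; rw [hi, hj, pow_add, pow_mul, hpar, pow_one]
  obtain ⟨b₁, hb₁, hb₁u⟩ := hρsurj u (by rw [map_mul, hu, zero_mul])
  obtain ⟨b₂, hb₂, hb₂u⟩ := hρsurj (u ^ 5) (by rw [map_mul, hu', zero_mul])
  have hroot : ∀ (g : Gal(E/ℚ)) (a : E), aeval a f = 0 → aeval (g a) f = 0 := by
    intro g a ha
    have h1 : aeval (g a) f = g (aeval a f) :=
      Polynomial.aeval_algHom_apply ((g : E ≃ₐ[ℚ] E).toRingEquiv.toRingHom.toIntAlgHom) a f
    rw [h1, ha, map_zero]
  have hρj : ∀ (j : ℕ) (a : E), aeval a f = 0 → ρ ((σ ^ j) a) = ρ a ^ 5 ^ j := by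
    intro j a ha
    induction j with
    | zero => simp
    | succ j ih =>
      rw [pow_succ', AlgEquiv.mul_apply, hρσ _ (hroot _ _ ha), ih, ← pow_mul, ← pow_succ]
  obtain ⟨q, hq⟩ := hmodd
  refine ⟨σ ^ m, b₁, b₂, hb₁, hb₂, ?_, ?_, ?_, ?_⟩
  · intro h
    apply hu5
    rw [← hb₂u, ← hb₁u, h]
  · apply hρinj _ _ (hroot _ _ hb₁) hb₂
    rw [hρj _ _ hb₁, hb₁u, hb₂u, hq, pow_add, pow_mul, hpar, pow_one]
  · apply hρinj _ _ (hroot _ _ hb₂) hb₁
    rw [hρj _ _ hb₂, hb₁u, hb₂u, ← pow_mul, ← pow_succ', hq,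
      show 2 * q + 1 + 1 = 2 * (q + 1) by ring, hpar]
  · intro a ha ha1 ha2
    apply hρinj _ _ (hroot _ _ ha) ha
    rw [hρj _ _ ha]
    have h1 := hρ a ha
    rw [map_mul, map_mul, map_pow, aeval_X] at h1
    rcases mul_eq_zero.1 h1 with h1 | h1
    · exfalso
      rcases hroots2 _ h1 with h1 | h1
      · exact ha1 (hρinj _ _ ha hb₁ (by rw [h1, hb₁u]))
      · exact ha2 (hρinj _ _ ha hb₂ (by rw [h1, hb₂u]))
    · rcases mul_eq_zero.1 h1 with h1 | h1
      · have h3 : ρ a = 0 := by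
          by_contra hcon
          exact pow_ne_zero e hcon h1
        rw [h3, zero_pow (by positivity)]
      · have h3 := pow_root 5 k hm hmi hmm (ρ a) h1
        rwa [hmd] at h3

theorem full_group (E : Type) [Field E] [NumberField E] [IsGalois ℚ E] (f : ℤ[X])
    (hf : f.Monic) (hirr : Irreducible (f.map (algebraMap ℤ ℚ)))
    (hsplit : (f.map (algebraMap ℤ ℚ)).IsSplittingField ℚ E)
    (σ : Gal(E/ℚ)) (a₁ : E) (ha₁ : aeval a₁ f = 0) (hσa₁ : σ a₁ = a₁)
    (hσt : ∀ a a' : E, aeval a f = 0 → aeval a' f = 0 → a ≠ a₁ → a' ≠ a₁ →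
        ∃ i : ℕ, (σ ^ i) a = a')
    (τ : Gal(E/ℚ)) (b₁ b₂ : E) (hb₁ : aeval b₁ f = 0) (hb₂ : aeval b₂ f = 0) (hb : b₁ ≠ b₂)
    (hτ1 : τ b₁ = b₂) (hτ2 : τ b₂ = b₁)
    (hτ : ∀ a, aeval a f = 0 → a ≠ b₁ → a ≠ b₂ → τ a = a) :
    finrank ℚ E = f.natDegree.factorial := by
  classical
  have hroot : ∀ (g : Gal(E/ℚ)) (a : E), aeval a f = 0 → aeval (g a) f = 0 := by
    intro g a ha
    have h1 : aeval (g a) f = g (aeval a f) :=
      Polynomial.aeval_algHom_apply ((g : E ≃ₐ[ℚ] E).toRingEquiv.toRingHom.toIntAlgHom) a f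
    rw [h1, ha, map_zero]
  set fQ : ℚ[X] := f.map (algebraMap ℤ ℚ) with hfQ
  have hfQ0 : fQ ≠ 0 := hirr.ne_zero
  have hmem : ∀ a : E, a ∈ fQ.rootSet E ↔ aeval a f = 0 := by
    intro a
    rw [mem_rootSet, hfQ, aeval_map_algebraMap]
    exact ⟨fun h => h.2, fun h => ⟨hfQ0, h⟩⟩
  let act : MulAction Gal(E/ℚ) {a : E // aeval a f = 0} :=
    { smul := fun g a => ⟨g a.1, hroot g a.1 a.2⟩
      one_smul := fun a => rfl
      mul_smul := fun g h a => rfl }
  have hact : ∀ (g : Gal(E/ℚ)) (a : {a : E // aeval a f = 0}),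
      ((MulAction.toPermHom Gal(E/ℚ) {a : E // aeval a f = 0} g a : {a : E // aeval a f = 0}) : E)
        = g a.1 := fun g a => rfl
  have hfin : Finite {a : E // aeval a f = 0} := by
    have h1 : (fQ.rootSet E).Finite := Set.toFinite _
    refine Set.Finite.subset h1 ?_ |>.to_subtype
    intro a ha
    exact (hmem a).2 ha
  have hcardR : Nat.card {a : E // aeval a f = 0} = f.natDegree := by
    have h1 := card_rootSet_eq_natDegree (K := E) (p := fQ) hirr.separable hsplit.splits'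
    rw [hfQ, hf.natDegree_map] at h1
    rw [← h1, ← Nat.card_eq_fintype_card]
    exact Nat.card_congr (Equiv.subtypeEquivRight fun a => (hmem a).symm)
  have hinj : Function.Injective (MulAction.toPermHom Gal(E/ℚ) {a : E // aeval a f = 0}) := by
    intro g h hgh
    have h1 : (g : E →ₐ[ℚ] E) = (h : E →ₐ[ℚ] E) := by
      apply AlgHom.ext_of_adjoin_eq_top (IsSplittingField.adjoin_rootSet E fQ)
      intro a ha
      have h2 := (hmem a).1 ha
      have h3 := hact g ⟨a, h2⟩
      have h4 := hact h ⟨a, h2⟩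
      rw [hgh, h4] at h3
      exact h3.symm
    ext x
    exact congrArg (fun φ : E →ₐ[ℚ] E => φ x) h1
  have htrans : ∀ x : E, aeval x f = 0 → ∃ g : Gal(E/ℚ), g x = a₁ := by
    intro x hx
    have hmx : minpoly ℚ x = fQ :=
      (minpoly.eq_of_irreducible_of_monic hirr (by rw [hfQ, aeval_map_algebraMap]; exact hx)
        (hf.map _)).symm
    exact minpoly.exists_algEquiv_of_root' (K := ℚ) (x := a₁) (y := x)
      (Algebra.IsAlgebraic.isAlgebraic _) (by
        rw [hmx, hfQ, aeval_map_algebraMap]; exact ha₁)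
  have hσi : ∀ i : ℕ, (σ ^ i) a₁ = a₁ := by
    intro j
    induction j with
    | zero => rfl
    | succ j ihj => rw [pow_succ, AlgEquiv.mul_apply, hσa₁, ihj]
  have h2trans : ∀ x y : E, aeval x f = 0 → aeval y f = 0 → x ≠ y →
      ∃ g : Gal(E/ℚ), g b₁ = x ∧ g b₂ = y := by
    intro x y hx hy hxy
    obtain ⟨g1, hg1⟩ := htrans x hx
    obtain ⟨g2, hg2⟩ := htrans b₁ hb₁
    have h3 : g1 y ≠ a₁ := by
      intro h
      rw [← hg1] at h
      exact hxy (g1.injective h).symm
    have h4 : g2 b₂ ≠ a₁ := by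
      intro h
      rw [← hg2] at h
      exact hb (g2.injective h).symm
    obtain ⟨i, hi⟩ := hσt _ _ (hroot g2 _ hb₂) (hroot g1 _ hy) h4 h3
    refine ⟨g1⁻¹ * σ ^ i * g2, ?_, ?_⟩
    · rw [AlgEquiv.mul_apply, AlgEquiv.mul_apply, hg2, hσi, ← hg1, ← AlgEquiv.mul_apply,
        inv_mul_cancel, AlgEquiv.one_apply]
    · rw [AlgEquiv.mul_apply, AlgEquiv.mul_apply, hi, ← AlgEquiv.mul_apply, inv_mul_cancel,
        AlgEquiv.one_apply]
  have hsurj : Function.Surjective (MulAction.toPermHom Gal(E/ℚ) {a : E // aeval a f = 0}) := by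
    rw [← MonoidHom.range_eq_top, eq_top_iff, ← Equiv.Perm.closure_isSwap, Subgroup.closure_le]
    rintro _ ⟨x, y, hxy, rfl⟩
    obtain ⟨g, hgx, hgy⟩ := h2trans x.1 y.1 x.2 y.2 (fun h => hxy (Subtype.ext h))
    refine ⟨g * τ * g⁻¹, ?_⟩
    ext z
    rw [hact, AlgEquiv.mul_apply, AlgEquiv.mul_apply]
    have hginv : ∀ w : E, g (g⁻¹ w) = w := by
      intro w
      rw [← AlgEquiv.mul_apply, mul_inv_cancel, AlgEquiv.one_apply]
    by_cases hzx : z = x
    · rw [hzx, Equiv.swap_apply_left]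
      have h1 : g⁻¹ x.1 = b₁ := by
        apply g.injective
        rw [hginv, hgx]
      rw [h1, hτ1, hgy]
    · by_cases hzy : z = y
      · rw [hzy, Equiv.swap_apply_right]
        have h1 : g⁻¹ y.1 = b₂ := by
          apply g.injective
          rw [hginv, hgy]
        rw [h1, hτ2, hgx]
      · rw [Equiv.swap_apply_of_ne_of_ne hzx hzy]
        rw [hτ (g⁻¹ z.1) (hroot _ _ z.2), hginv]
        · intro h
          apply hzx
          apply Subtype.ext
          rw [← hginv z.1, h, hgx]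
        · intro h
          apply hzy
          apply Subtype.ext
          rw [← hginv z.1, h, hgy]
  have h1 := Nat.card_congr (Equiv.ofBijective _ ⟨hinj, hsurj⟩)
  rw [IsGalois.card_aut_eq_finrank, Nat.card_perm, hcardR] at h1
  exact h1

theorem normal_Qbar : Normal ℚ (AlgebraicClosure ℚ) := by
  have h := @IsAlgClosure.normal ℚ (AlgebraicClosure ℚ) _ _ (AlgebraicClosure.instAlgebra ℚ)
    inferInstance
  convert h
  exact Subsingleton.elim _ _

theorem nc_eq (α : AlgebraicClosure ℚ) :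
    (IntermediateField.normalClosure ℚ (IntermediateField.adjoin ℚ {α}) (AlgebraicClosure ℚ)) = ⨆ g : Gal(AlgebraicClosure ℚ/ℚ), (IntermediateField.adjoin ℚ {α}).map
          (g : AlgebraicClosure ℚ →ₐ[ℚ] AlgebraicClosure ℚ) := by
  have hn : Normal ℚ (AlgebraicClosure ℚ) := normal_Qbar
  have key : ∀ inst : Algebra ℚ (IntermediateField.adjoin ℚ {α}),
      @IntermediateField.normalClosure ℚ (IntermediateField.adjoin ℚ {α}) (AlgebraicClosure ℚ)
        _ _ _ inst _ = ⨆ g : Gal(AlgebraicClosure ℚ/ℚ), (IntermediateField.adjoin ℚ {α}).map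
          (g : AlgebraicClosure ℚ →ₐ[ℚ] AlgebraicClosure ℚ) := by
    intro inst
    have hinst : inst = IntermediateField.algebra' _ := Subsingleton.elim _ _
    subst hinst
    exact IntermediateField.normalClosure_def'' _
  exact key _

theorem normalClosure_finrank (f : ℤ[X]) (hf : f.Monic) (h3 : (ZMod 3)[X]) (h3i : Irreducible h3)
    (h3m : h3.Monic) (h30 : h3.coeff 0 ≠ 0)
    (hmod3 : f.map (Int.castRingHom (ZMod 3)) = X * h3)
    (h2 hm : (ZMod 5)[X]) (e m : ℕ)
    (he : e ≤ 1) (hm3 : 3 ≤ m) (hmodd : Odd m) (h2i : Irreducible h2) (h2m : h2.Monic)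
    (h2d : h2.natDegree = 2) (hmi : Irreducible hm) (hmm : hm.Monic) (hmd : hm.natDegree = m)
    (hmod : f.map (Int.castRingHom (ZMod 5)) = h2 * (X ^ e * hm))
    (α : AlgebraicClosure ℚ) (hα : minpoly ℤ α = f) :
    finrank ℚ (IntermediateField.normalClosure ℚ (IntermediateField.adjoin ℚ {α})
      (AlgebraicClosure ℚ)) = f.natDegree.factorial := by
  classical
  have hαi : IsIntegral ℤ α := by
    by_contra hcon
    rw [minpoly.eq_zero hcon] at hα
    exact hf.ne_zero hα.symm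
  have hαQ : IsIntegral ℚ α := hαi.tower_top
  have hαf : aeval α f = 0 := by rw [← hα]; exact minpoly.aeval ℤ α
  have hmQ : minpoly ℚ α = f.map (algebraMap ℤ ℚ) := by
    rw [← hα]
    exact minpoly.isIntegrallyClosed_eq_field_fractions' ℚ hαi
  set fQ : ℚ[X] := f.map (algebraMap ℤ ℚ) with hfQ
  have hfQ0 : fQ ≠ 0 := (hf.map _).ne_zero
  have hn : Normal ℚ (AlgebraicClosure ℚ) := normal_Qbar
  have hna := hn.toIsAlgebraic
  have hNE : IntermediateField.normalClosure ℚ (IntermediateField.adjoin ℚ {α})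
      (AlgebraicClosure ℚ) = IntermediateField.adjoin ℚ (fQ.rootSet (AlgebraicClosure ℚ)) := by
    rw [nc_eq]
    apply le_antisymm
    · refine iSup_le fun g => ?_
      rw [IntermediateField.adjoin_map, IntermediateField.adjoin_le_iff]
      rintro _ ⟨x, hx, rfl⟩
      rw [Set.mem_singleton_iff] at hx
      rw [hx]
      apply IntermediateField.subset_adjoin
      rw [mem_rootSet]
      refine ⟨hfQ0, ?_⟩
      have h1 := Polynomial.aeval_algHom_apply (g : AlgebraicClosure ℚ →ₐ[ℚ] AlgebraicClosure ℚ)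
        α fQ
      have h2 : aeval α fQ = 0 := by rw [← hmQ]; exact minpoly.aeval ℚ α
      rw [h2, map_zero] at h1
      exact h1
    · rw [IntermediateField.adjoin_le_iff]
      intro β hβ
      obtain ⟨g, hg⟩ := minpoly.exists_algEquiv_of_root' (K := ℚ) (x := β) (y := α)
        (Algebra.IsAlgebraic.isAlgebraic _) (by
          rw [hmQ]; exact (mem_rootSet.1 hβ).2)
      have h1 : β ∈ (IntermediateField.adjoin ℚ {α}).map
          (g : AlgebraicClosure ℚ →ₐ[ℚ] AlgebraicClosure ℚ) := by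
        refine ⟨α, IntermediateField.mem_adjoin_simple_self ℚ α, hg⟩
      exact (le_iSup (fun g : Gal(AlgebraicClosure ℚ/ℚ) => (IntermediateField.adjoin ℚ {α}).map
          (g : AlgebraicClosure ℚ →ₐ[ℚ] AlgebraicClosure ℚ)) g) h1
  rw [hNE]
  set E := IntermediateField.adjoin ℚ (fQ.rootSet (AlgebraicClosure ℚ)) with hE
  have hsplit : fQ.IsSplittingField ℚ E :=
    IntermediateField.adjoin_rootSet_isSplittingField (IsAlgClosed.splits _)
  have hfdE : FiniteDimensional ℚ E := IsSplittingField.finiteDimensional E fQ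
  have hnumE : NumberField E := { to_charZero := inferInstance, to_finiteDimensional := hfdE }
  have hnorm : Normal ℚ E := Normal.of_isSplittingField fQ
  have hgal : IsGalois ℚ E := { to_isSeparable := inferInstance, to_normal := hnorm }
  have hsE : (f.map (algebraMap ℤ E)).Splits := by
    have h1 := hsplit.splits'
    rw [hfQ, Polynomial.map_map, ← IsScalarTower.algebraMap_eq] at h1
    exact h1
  obtain ⟨σ, a₁, ha₁, hσa₁, htrans⟩ := frob E f hf hsE h3 h3i h3m h30 hmod3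
  obtain ⟨τ, b₁, b₂, hb₁, hb₂, hb, hτ1, hτ2, hτ⟩ := transposition E f hf hsE h2 hm e m he hm3
    hmodd h2i h2m h2d hmi hmm hmd hmod
  exact full_group E f hf (by rw [← hfQ, ← hmQ]; exact minpoly.irreducible hαQ) hsplit σ a₁ ha₁
    hσa₁ htrans τ b₁ b₂ hb₁ hb₂ hb hτ1 hτ2 hτ

theorem exists_residue_sn (n : ℕ) (hn : 5 ≤ n) : ∃ f0 : ℤ[X], f0.Monic ∧ f0.natDegree = n ∧
    ∀ f : ℤ[X], f.Monic → (∃ g, f = f0 + C ((30 : ℕ) : ℤ) * g) → Irreducible f ∧
      ∀ α : AlgebraicClosure ℚ, minpoly ℤ α = f →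
        (∀ K : IntermediateField ℚ (IntermediateField.adjoin ℚ {α}), K = ⊥ ∨ K = ⊤) ∧
        Module.finrank ℚ (IntermediateField.normalClosure ℚ (IntermediateField.adjoin ℚ {α})
          (AlgebraicClosure ℚ)) = n.factorial := by
  have h2p : Fact (Nat.Prime 2) := ⟨Nat.prime_two⟩
  have h3p : Fact (Nat.Prime 3) := ⟨Nat.prime_three⟩
  have h5p : Fact (Nat.Prime 5) := ⟨Nat.prime_five⟩
  obtain ⟨e, m, he, hm3, hmodd, hnem⟩ : ∃ e m : ℕ, e ≤ 1 ∧ 3 ≤ m ∧ Odd m ∧ n = 2 + (e + m) := by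
    rcases Nat.even_or_odd n with h | h
    · obtain ⟨r, hr⟩ := h
      exact ⟨1, n - 3, le_refl _, by omega, ⟨r - 2, by omega⟩, by omega⟩
    · obtain ⟨r, hr⟩ := h
      exact ⟨0, n - 2, by omega, by omega, ⟨r - 1, by omega⟩, by omega⟩
  obtain ⟨F2, hF2m, hF2d, hF2i⟩ := exists_lift 2 n (by omega)
  obtain ⟨H3, hH3m, hH3d, hH3i⟩ := exists_lift 3 (n - 1) (by omega)
  obtain ⟨Q5, hQ5m, hQ5d, hQ5i⟩ := exists_lift 5 2 (by omega)
  obtain ⟨H5, hH5m, hH5d, hH5i⟩ := exists_lift 5 m (by omega)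
  have hF3m : (X * H3).Monic := monic_X.mul hH3m
  have hF3d : (X * H3).natDegree = n := by
    rw [monic_X.natDegree_mul hH3m, natDegree_X, hH3d]; omega
  have hF5m : (Q5 * (X ^ e * H5)).Monic := hQ5m.mul ((monic_X_pow e).mul hH5m)
  have hF5d : (Q5 * (X ^ e * H5)).natDegree = n := by
    rw [hQ5m.natDegree_mul ((monic_X_pow e).mul hH5m), (monic_X_pow e).natDegree_mul hH5m,
      natDegree_X_pow, hQ5d, hH5d, hnem]
  set F3 := X * H3 with hF3
  set F5 := Q5 * (X ^ e * H5) with hF5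
  have c15 : (15 : ℤ[X]) = C 15 := rfl
  have c10 : (10 : ℤ[X]) = C 10 := rfl
  have c24 : (24 : ℤ[X]) = C 24 := rfl
  have hc : (15 * F2 + 10 * F3 - 24 * F5 : ℤ[X]).coeff n = 1 := by
    rw [c15, c10, c24, coeff_sub, coeff_add, coeff_C_mul, coeff_C_mul, coeff_C_mul]
    have h2 : F2.coeff n = 1 := by rw [← hF2d]; exact hF2m
    have h3 : F3.coeff n = 1 := by rw [← hF3d]; exact hF3m
    have h5 : F5.coeff n = 1 := by rw [← hF5d]; exact hF5m
    rw [h2, h3, h5]; norm_num
  have hdle : (15 * F2 + 10 * F3 - 24 * F5 : ℤ[X]).natDegree ≤ n := by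
    refine (natDegree_sub_le _ _).trans (max_le ((natDegree_add_le _ _).trans (max_le ?_ ?_)) ?_)
    · refine natDegree_mul_le.trans ?_
      rw [hF2d, c15, natDegree_C, zero_add]
    · refine natDegree_mul_le.trans ?_
      rw [hF3d, c10, natDegree_C, zero_add]
    · refine natDegree_mul_le.trans ?_
      rw [hF5d, c24, natDegree_C, zero_add]
  have hmon : (15 * F2 + 10 * F3 - 24 * F5 : ℤ[X]).Monic :=
    monic_of_natDegree_le_of_coeff_eq_one n hdle hc
  have hdeg : (15 * F2 + 10 * F3 - 24 * F5 : ℤ[X]).natDegree = n := by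
    apply le_antisymm hdle
    apply le_natDegree_of_ne_zero
    rw [hc]; norm_num
  refine ⟨15 * F2 + 10 * F3 - 24 * F5, hmon, hdeg, ?_⟩
  rintro f hf ⟨g, hg⟩
  have c30 : (C ((30 : ℕ) : ℤ) : ℤ[X]) = 30 := rfl
  have c2 : (C 2 : ℤ[X]) = 2 := rfl
  have c3 : (C 3 : ℤ[X]) = 3 := rfl
  have c5 : (C 5 : ℤ[X]) = 5 := rfl
  have hmod2 : f.map (Int.castRingHom (ZMod 2)) = F2.map (Int.castRingHom (ZMod 2)) := by
    have h1 : f = F2 + C 2 * (7 * F2 + 5 * F3 - 12 * F5 + 15 * g) := by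
      rw [hg, c30, c2]
      ring
    rw [h1, Polynomial.map_add, Polynomial.map_mul, Polynomial.map_C]
    have h2 : (Int.castRingHom (ZMod 2)) 2 = 0 := rfl
    rw [h2, C_0, zero_mul, add_zero]
  have hmod3 : f.map (Int.castRingHom (ZMod 3)) = X * H3.map (Int.castRingHom (ZMod 3)) := by
    have h1 : f = F3 + C 3 * (5 * F2 + 3 * F3 - 8 * F5 + 10 * g) := by
      rw [hg, c30, c3]
      ring
    have h2 : (Int.castRingHom (ZMod 3)) 3 = 0 := rfl
    rw [h1, Polynomial.map_add, Polynomial.map_mul (p := C 3), Polynomial.map_C, h2, C_0, zero_mul,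
      add_zero, hF3, Polynomial.map_mul, Polynomial.map_X]
  have hmod5 : f.map (Int.castRingHom (ZMod 5)) = Q5.map (Int.castRingHom (ZMod 5)) *
      (X ^ e * H5.map (Int.castRingHom (ZMod 5))) := by
    have h1 : f = F5 + C 5 * (3 * F2 + 2 * F3 - 5 * F5 + 6 * g) := by
      rw [hg, c30, c5]
      ring
    have h2 : (Int.castRingHom (ZMod 5)) 5 = 0 := rfl
    rw [h1, Polynomial.map_add, Polynomial.map_mul (p := C 5), Polynomial.map_C, h2, C_0, zero_mul,
      add_zero, hF5, Polynomial.map_mul, Polynomial.map_mul, Polynomial.map_pow, Polynomial.map_X]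
  have hH30 : (H3.map (Int.castRingHom (ZMod 3))).coeff 0 ≠ 0 := by
    intro h
    rw [← X_dvd_iff] at h
    obtain ⟨q, hq⟩ := h
    have h1 := hH3i.isUnit_or_isUnit hq
    rcases h1 with h1 | h1
    · exact not_isUnit_X h1
    · have h2 : (H3.map (Int.castRingHom (ZMod 3))).natDegree = n - 1 := by
        rw [hH3m.natDegree_map, hH3d]
      rw [hq, natDegree_X_mul h1.ne_zero, natDegree_eq_zero_of_isUnit h1] at h2
      omega
  have hfd : f.natDegree = n := by
    rw [← hF2d, ← hF2m.natDegree_map (Int.castRingHom (ZMod 2)), ← hmod2, hf.natDegree_map]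
  refine ⟨?_, ?_⟩
  · apply hf.irreducible_of_irreducible_map (Int.castRingHom (ZMod 2))
    rw [hmod2]
    exact hF2i
  · intro α hα
    refine ⟨fun K => no_intermediate f hf (H3.map (Int.castRingHom (ZMod 3))) hH3i (hH3m.map _)
      hH30 hmod3 α hα K, ?_⟩
    rw [← hfd]
    exact normalClosure_finrank f hf (H3.map (Int.castRingHom (ZMod 3))) hH3i (hH3m.map _)
      hH30 hmod3 (Q5.map (Int.castRingHom (ZMod 5))) (H5.map (Int.castRingHom (ZMod 5))) e m he hm3
      hmodd hQ5i (hQ5m.map _) (by rw [hQ5m.natDegree_map, hQ5d]) hH5i (hH5m.map _)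
      (by rw [hH5m.natDegree_map, hH5d]) hmod5 α hα

end Pool.Agent.L5helper5.NfLow
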